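import Pool.Agent.Lib.MP_73c19a_an.Mg.G020

/-!
# Joint small ball estimate for independent integer vectors
-/

set_option autoImplicit false

namespace KX

open MeasureTheory

open scoped ENNReal

theorem tail_event {V : Type} [DecidableEq V] [Countable V] (be : V → ℝ) (hb : ∀ j, 0 ≤ be j)
    (hs : Summable be) (c : V → (V → ℝ) → ℝ) (lip : V → ℝ) (hl : ∀ j, 0 ≤ lip j)
    (hls : Summable lip) (hsm : (∑' j, lip j) * (∑' j, be j) ≤ 1 / 2)
    (hc : ∀ j w w', |c j w - c j w'| ≤ lip j * DD be w w') {ι : Type} (R : Finset ι)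
    (k : ι → V →₀ ℤ)
    (hk : LinearIndependent ℝ fun i : R => fun v : V => ((k i v : ℤ) : ℝ)) (m : R → ℕ) :
    PP V {w | ∀ i : R, 1 ≤ m i →
      |(k i).sum fun v x => (x : ℝ) * (w v + c v w)| ≤ Real.exp (-(m i : ℝ))} ≤
      ENNReal.ofReal (∏ i : R, (8 * Real.exp (-(m i : ℝ)))) := by
  classical
  let R' := {i : R // 1 ≤ m i}
  let eqv : Fin (Fintype.card R') ≃ R' := (Fintype.equivFin R').symm
  have hk' : LinearIndependent ℝ fun s : Fin (Fintype.card R') => fun v : V =>
      ((k ((eqv s).1 : ι) v : ℤ) : ℝ) :=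
    hk.comp (fun s => (eqv s).1) (fun a b h => eqv.injective (Subtype.ext h))
  have h1 := small_ball be hb hs c lip hl hls hsm hc (fun s => k ((eqv s).1 : ι)) hk'
    (fun s => Real.exp (-(m (eqv s).1 : ℝ))) (fun s => (Real.exp_pos _).le)
  refine (measure_mono ?_).trans (h1.trans ?_)
  · intro w hw s
    exact hw (eqv s).1 (eqv s).2
  · apply ENNReal.ofReal_le_ofReal
    rw [Equiv.prod_comp eqv (fun i : R' => 8 * Real.exp (-(m i.1 : ℝ))),
      ← Finset.prod_subtype (Finset.univ.filter fun i : R => 1 ≤ m i) (by simp)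
        (fun i => 8 * Real.exp (-(m i : ℝ))), Finset.prod_filter]
    refine Finset.prod_le_prod (fun i _ => ?_) fun i _ => ?_
    · split_ifs
      · positivity
      · norm_num
    · split_ifs with h
      · exact le_rfl
      · have : m i = 0 := by omega
        rw [this]
        norm_num

theorem tail_geom (N : ℕ) :
    ∑ j ∈ Finset.range (N + 1), (8 * Real.exp (1 / 2) * Real.exp (-(j : ℝ) / 2)) ≤ 34 := by
  set s := Real.exp (1 / 2) with hs
  have hs2 : s * s = Real.exp 1 := by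
    rw [hs, ← Real.exp_add]
    norm_num
  have he1 := Real.exp_one_gt_d9
  have he2 := Real.exp_one_lt_d9
  have hs0 : 0 < s := Real.exp_pos _
  have hs1 : 1.64 ≤ s := by
    by_contra hlt
    push Not at hlt
    nlinarith
  have hq : ∀ j : ℕ, Real.exp (-(j : ℝ) / 2) = (s⁻¹) ^ j := by
    intro j
    rw [hs, ← Real.exp_neg, ← Real.exp_nat_mul]
    congr 1
    ring
  simp only [hq]
  rw [← Finset.mul_sum]
  have hg := geom_sum_mul_neg (s⁻¹) (N + 1)
  set G := ∑ j ∈ Finset.range (N + 1), (s⁻¹) ^ j with hG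
  have hle : G * (1 - s⁻¹) ≤ 1 := by
    rw [hg]
    have : 0 ≤ (s⁻¹) ^ (N + 1) := by positivity
    linarith
  have hle2 : G * (s - 1) ≤ s := by
    have := mul_le_mul_of_nonneg_right hle hs0.le
    have h3 : G * (1 - s⁻¹) * s = G * (s - 1) := by
      field_simp
    rw [h3, one_mul] at this
    exact this
  have hG0 : 0 ≤ G := Finset.sum_nonneg fun j _ => by positivity
  -- 8 s G ≤ 34
  have h4 : G * (s - 1) * s ≤ Real.exp 1 := by
    rw [← hs2]
    exact mul_le_mul_of_nonneg_right hle2 hs0.le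
  have h5 : 0.64 * (G * s) ≤ G * (s - 1) * s := by
    have : 0 ≤ G * s := by positivity
    nlinarith
  nlinarith

/-- the tail estimate, from `small_ball` by discretization: `x_i = log (mx y_i)`,
`∑ x_i > X` implies `∑ ⌊x_i⌋ ≥ X - r` -/
theorem tail {V : Type} [DecidableEq V] [Countable V] (be : V → ℝ) (hb : ∀ j, 0 ≤ be j)
    (hs : Summable be) (c : V → (V → ℝ) → ℝ) (lip : V → ℝ) (hl : ∀ j, 0 ≤ lip j)
    (hls : Summable lip) (hsm : (∑' j, lip j) * (∑' j, be j) ≤ 1 / 2)
    (hc : ∀ j w w', |c j w - c j w'| ≤ lip j * DD be w w') {ι : Type} (R : Finset ι)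
    (k : ι → V →₀ ℤ)
    (hk : LinearIndependent ℝ fun i : R => fun v : V => ((k i v : ℤ) : ℝ)) (X : ℝ) :
    PP V {w | (∀ i ∈ R, ((k i).sum fun v x => (x : ℝ) * (w v + c v w)) ≠ 0) ∧
      Real.exp X < ∏ i ∈ R, max 1 |(k i).sum fun v x => (x : ℝ) * (w v + c v w)|⁻¹} ≤
      ENNReal.ofReal (34 ^ R.card * Real.exp (-X / 2)) := by
  classical
  set N := ⌈X⌉₊ with hN
  have hNX : X ≤ (N : ℝ) := Nat.le_ceil X
  set T := (Fintype.piFinset fun _ : R => Finset.range (N + 1)).filter
    (fun m : R → ℕ => X - R.card ≤ ∑ i, (m i : ℝ)) with hT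
  have hcardR : (Finset.univ : Finset R).card = R.card := by simp
  have hsub : {w : V → ℝ | (∀ i ∈ R, ((k i).sum fun v x => (x : ℝ) * (w v + c v w)) ≠ 0) ∧
      Real.exp X < ∏ i ∈ R, max 1 |(k i).sum fun v x => (x : ℝ) * (w v + c v w)|⁻¹} ⊆
      ⋃ m ∈ T, {w : V → ℝ | ∀ i : R, 1 ≤ m i →
        |(k i).sum fun v x => (x : ℝ) * (w v + c v w)| ≤ Real.exp (-(m i : ℝ))} := by
    rintro w ⟨-, hw⟩
    set mx : ι → ℝ := fun i => max 1 |(k i).sum fun v x => (x : ℝ) * (w v + c v w)|⁻¹ with hmx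
    have hmx1 : ∀ i, 1 ≤ mx i := fun i => le_max_left _ _
    have hmx0 : ∀ i, 0 < mx i := fun i => lt_of_lt_of_le one_pos (hmx1 i)
    set x : ι → ℝ := fun i => Real.log (mx i) with hx
    have hx0 : ∀ i, 0 ≤ x i := fun i => Real.log_nonneg (hmx1 i)
    have hsumx : X < ∑ i : R, x i := by
      have h1 : Real.exp (∑ i : R, x i) = ∏ i ∈ R, mx i := by
        rw [Real.exp_sum, ← Finset.prod_coe_sort R]
        refine Finset.prod_congr rfl fun i _ => ?_
        exact Real.exp_log (hmx0 i)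
      have h2 : Real.exp X < Real.exp (∑ i : R, x i) := by rw [h1]; exact hw
      exact Real.exp_lt_exp.1 h2
    set m : R → ℕ := fun i => min ⌊x i⌋₊ N with hm
    have hmT : m ∈ T := by
      rw [hT, Finset.mem_filter, Fintype.mem_piFinset]
      refine ⟨fun i => Finset.mem_range.2 (Nat.lt_succ_of_le (min_le_right _ _)), ?_⟩
      by_cases hex : ∃ i : R, N ≤ ⌊x i⌋₊
      · obtain ⟨i, hi⟩ := hex
        have h1 : (m i : ℝ) = N := by
          show ((min ⌊x i⌋₊ N : ℕ) : ℝ) = N
          rw [min_eq_right hi]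
        have h2 : (m i : ℝ) ≤ ∑ i, (m i : ℝ) :=
          Finset.single_le_sum (f := fun i => (m i : ℝ)) (fun j _ => Nat.cast_nonneg _)
            (Finset.mem_univ i)
        have h3 : (0 : ℝ) ≤ R.card := Nat.cast_nonneg _
        linarith
      · push Not at hex
        have h1 : ∀ i : R, x i - 1 ≤ (m i : ℝ) := by
          intro i
          have h2 : m i = ⌊x i⌋₊ := min_eq_left (hex i).le
          rw [h2]
          have := Nat.lt_floor_add_one (x i)
          linarith
        have h2 : ∑ i : R, (x i - 1) ≤ ∑ i, (m i : ℝ) := Finset.sum_le_sum fun i _ => h1 i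
        rw [Finset.sum_sub_distrib] at h2
        simp only [Finset.sum_const, nsmul_eq_mul, mul_one] at h2
        rw [hcardR] at h2
        linarith
    refine Set.mem_biUnion hmT ?_
    intro i hi
    have h1 : (m i : ℝ) ≤ x i := by
      have h2 : m i ≤ ⌊x i⌋₊ := min_le_left _ _
      exact (Nat.cast_le.2 h2).trans (Nat.floor_le (hx0 i))
    have h3 : Real.exp (m i) ≤ mx i := by
      rw [← Real.exp_log (hmx0 i)]
      exact Real.exp_le_exp.2 h1
    have h4 : (1 : ℝ) < Real.exp (m i) := by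
      rw [Real.one_lt_exp_iff]
      exact_mod_cast hi
    have h5 : Real.exp (m i) ≤ |(k i).sum fun v x => (x : ℝ) * (w v + c v w)|⁻¹ := by
      rcases le_max_iff.1 h3 with h | h
      · linarith
      · exact h
    have h6 := inv_anti₀ (Real.exp_pos _) h5
    rw [inv_inv, ← Real.exp_neg] at h6
    exact h6
  refine (measure_mono hsub).trans ((measure_biUnion_finset_le _ _).trans ?_)
  refine (Finset.sum_le_sum fun m _ =>
    tail_event be hb hs c lip hl hls hsm hc R k hk m).trans ?_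
  rw [← ENNReal.ofReal_sum_of_nonneg fun m _ => Finset.prod_nonneg fun i _ => by positivity]
  apply ENNReal.ofReal_le_ofReal
  have hterm : ∀ m ∈ T, ∏ i : R, (8 * Real.exp (-(m i : ℝ))) ≤
      Real.exp (-X / 2) * ∏ i : R, (8 * Real.exp (1 / 2) * Real.exp (-(m i : ℝ) / 2)) := by
    intro m hm
    have h1 := (Finset.mem_filter.1 hm).2
    rw [Finset.prod_mul_distrib, Finset.prod_mul_distrib, Finset.prod_const, Finset.prod_const,
      ← Real.exp_sum, ← Real.exp_sum, hcardR]
    have h2 : Real.exp (∑ i, -(m i : ℝ)) ≤ Real.exp (-X / 2) *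
        (Real.exp (1 / 2) ^ R.card * Real.exp (∑ i, -(m i : ℝ) / 2)) := by
      rw [← Real.exp_nat_mul, ← Real.exp_add, ← Real.exp_add]
      apply Real.exp_le_exp.2
      rw [← Finset.sum_div, Finset.sum_neg_distrib]
      linarith
    calc 8 ^ R.card * Real.exp (∑ i, -(m i : ℝ))
        ≤ 8 ^ R.card * (Real.exp (-X / 2) *
          (Real.exp (1 / 2) ^ R.card * Real.exp (∑ i, -(m i : ℝ) / 2))) :=
          mul_le_mul_of_nonneg_left h2 (by positivity)
      _ = _ := by rw [mul_pow]; ring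
  calc ∑ m ∈ T, ∏ i : R, (8 * Real.exp (-(m i : ℝ)))
      ≤ ∑ m ∈ T, Real.exp (-X / 2) *
        ∏ i : R, (8 * Real.exp (1 / 2) * Real.exp (-(m i : ℝ) / 2)) := Finset.sum_le_sum hterm
    _ ≤ ∑ m ∈ Fintype.piFinset fun _ : R => Finset.range (N + 1), Real.exp (-X / 2) *
        ∏ i : R, (8 * Real.exp (1 / 2) * Real.exp (-(m i : ℝ) / 2)) :=
        Finset.sum_le_sum_of_subset_of_nonneg (Finset.filter_subset _ _)
          fun m _ _ => by positivity
    _ = Real.exp (-X / 2) * ∏ _i : R, ∑ j ∈ Finset.range (N + 1),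
        (8 * Real.exp (1 / 2) * Real.exp (-(j : ℝ) / 2)) := by
        rw [← Finset.mul_sum, Finset.prod_univ_sum]
    _ ≤ Real.exp (-X / 2) * ∏ _i : R, (34 : ℝ) := by
        refine mul_le_mul_of_nonneg_left ?_ (Real.exp_pos _).le
        exact Finset.prod_le_prod (fun i _ => Finset.sum_nonneg fun j _ => by positivity)
          fun i _ => tail_geom N
    _ = 34 ^ R.card * Real.exp (-X / 2) := by
        rw [Finset.prod_const, hcardR]
        ring

end KX
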