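import Mathlib

/-!
# Geometry, labels and trees: definitions

`V` is the set of sites. A label is a monomial `x^n e^{i k·φ}` together with a finite cluster `A`
containing the supports. A tree records a term of an iterated Lie series: `node j f p` is the term
with index `j` of the bracket of the divided child `f` (a generator) with the child `p`.
-/

set_option autoImplicit false

namespace KX

/-- Geometric data on the set of sites. `Lam` is the length of a cluster, `br i = ⟨i⟩`, `a i` the
size of the action at `i`. -/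
structure Geo (V : Type) [DecidableEq V] where
  Lam : Finset V → ℕ
  Lam_mono : ∀ {A B : Finset V}, A ⊆ B → Lam A ≤ Lam B
  Lam_union : ∀ {A B : Finset V}, (A ∩ B).Nonempty → Lam (A ∪ B) ≤ Lam A + Lam B
  br : V → ℝ
  one_le_br : ∀ i, 1 ≤ br i
  br_le : ∀ {A : Finset V} {i j : V}, i ∈ A → j ∈ A → br i ≤ br j * (1 + Lam A)
  a : V → ℝ
  a_pos : ∀ i, 0 < a i
  a_le_one : ∀ i, a i ≤ 1

variable {V : Type} [DecidableEq V]

namespace Geo

/-- `max (1, max_{j ∈ A} 1 / a j)`. -/
noncomputable def ainv (G : Geo V) (A : Finset V) : ℝ := A.fold max 1 fun j => (G.a j)⁻¹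

/-- `min_{i ∈ S} ⟨i⟩` (equal to `1` for empty `S`). -/
noncomputable def brm (G : Geo V) (S : Finset V) : ℝ :=
  if h : S.Nonempty then S.inf' h G.br else 1

end Geo

/-- A labelled monomial `x^n e^{i k·φ}` with a cluster `A`. -/
@[ext] structure Lbl (V : Type) where
  A : Finset V
  n : V →₀ ℕ
  k : V →₀ ℤ
  hn : n.support ⊆ A
  hk : k.support ⊆ A

/-- `|n|` -/
def dgr {V : Type} (n : V →₀ ℕ) : ℕ := n.sum fun _ x => x

/-- `|k|` -/
def kab {V : Type} (k : V →₀ ℤ) : ℕ := k.sum fun _ x => x.natAbs

/-- `|n| + |k|` of a label -/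
def Lbl.N {V : Type} (l : Lbl V) : ℕ := dgr l.n + kab l.k

/-- Trees of Lie series terms. -/
inductive Tr (V : Type)
  | leaf (l : Lbl V) : Tr V
  | node (j : V) (f p : Tr V) : Tr V

namespace Tr

/-- number of leaves -/
def q : Tr V → ℕ
  | leaf _ => 1
  | node _ f p => q f + q p

/-- cluster -/
def A : Tr V → Finset V
  | leaf l => l.A
  | node _ f p => A f ∪ A p

/-- exponent of the actions -/
noncomputable def n : Tr V → V →₀ ℕ
  | leaf l => l.n
  | node j f p => (n f + n p) - Finsupp.single j 1

/-- exponent of the angles -/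
noncomputable def k : Tr V → V →₀ ℤ
  | leaf l => l.k
  | node _ f p => k f + k p

/-- sum over the leaves of `|n| + |k|` -/
def N : Tr V → ℕ
  | leaf l => l.N
  | node _ f p => N f + N p

/-- sum over the leaves of the cluster lengths -/
def L (G : Geo V) : Tr V → ℕ
  | leaf l => G.Lam l.A
  | node _ f p => L G f + L G p

/-- sum over the leaves of the number of sites -/
def ca : Tr V → ℕ
  | leaf l => l.A.card
  | node _ f p => ca f + ca p

/-- sum over the leaves of the number of sites outside `B` -/
def o (B : Finset V) : Tr V → ℕ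
  | leaf l => (l.A \ B).card
  | node _ f p => o B f + o B p

/-- sum over the nodes of the number of common sites outside `B` -/
def ov (B : Finset V) : Tr V → ℕ
  | leaf _ => 0
  | node _ f p => ((A f ∩ A p) \ B).card + ov B f + ov B p

/-- sum over the nodes of the sum of `w` over the common sites -/
noncomputable def mg (w : V → ℝ) : Tr V → ℝ
  | leaf _ => 0
  | node _ f p => (∑ i ∈ A f ∩ A p, w i) + mg w f + mg w p

/-- degree in the actions -/
noncomputable def deg (h : Tr V) : ℕ := dgr (n h)

/-- the integer coefficient of the bracket -/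
noncomputable def kap (j : V) (f p : Tr V) : ℤ := k p j * (n f j : ℤ) - (n p j : ℤ) * k f j

/-- length of the right spine -/
def spine : Tr V → ℕ
  | leaf _ => 0
  | node _ _ p => spine p + 1

/-- every node joins two clusters which contain its site -/
def conn : Tr V → Prop
  | leaf _ => True
  | node j f p => j ∈ A f ∧ j ∈ A p ∧ conn f ∧ conn p

end Tr

/-- Parameters of the mass: `mass h = mu * q + la * o + de * (N + L)`. -/
structure BP (V : Type) where
  mu : ℝ
  la : ℝ
  de : ℝ
  B : Finset V
  mu_pos : 0 < mu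
  la_pos : 0 < la
  de_pos : 0 < de

namespace Tr

/-- the mass of a tree (additive over the leaves) -/
noncomputable def mass (G : Geo V) (P : BP V) (h : Tr V) : ℝ :=
  P.mu * q h + P.la * o P.B h + P.de * (N h + L G h)

/-- the window of a tree: the largest `a` with `mu * (3/2)^a ≤ mass` -/
noncomputable def win (G : Geo V) (P : BP V) (h : Tr V) : ℕ :=
  ⌊Real.logb (3 / 2) (mass G P h / P.mu)⌋₊

/-- the elimination time -/
noncomputable def tau (G : Geo V) (P : BP V) (h : Tr V) : ℕ := 2 * win G P h + deg h

/-- the tree is eliminated at time `t` -/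
def EE (G : Geo V) (P : BP V) (t : ℕ) (h : Tr V) : Prop := deg h ≤ 1 ∧ k h ≠ 0 ∧ tau G P h = t

/-- the tree is moved to the frequency (or to the constants) at time `t` -/
def SS (G : Geo V) (P : BP V) (t : ℕ) (h : Tr V) : Prop := deg h ≤ 1 ∧ k h = 0 ∧ tau G P h = t

/-- creation time: `0` for a leaf, `tau f + 1` for `node j f p` -/
noncomputable def birth (G : Geo V) (P : BP V) : Tr V → ℕ
  | leaf _ => 0
  | node _ f _ => tau G P f + 1

/-- trees that can occur in the scheme -/
def Good (G : Geo V) (P : BP V) : Tr V → Prop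
  | leaf _ => True
  | node j f p => Good G P f ∧ Good G P p ∧ deg f ≤ 1 ∧ k f ≠ 0 ∧ kap j f p ≠ 0 ∧
      birth G P p ≤ tau G P f + 1 ∧ (deg p ≤ 1 → tau G P f ≤ tau G P p)

end Tr

end KX
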