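import Pool.Agent.Lib.MP_73c19a_an.Tree

/-!
# Positions in trees

`Lf h`: the leaf positions, `Dv h`: the positions of the divided (left) children, with their
subtrees and leaf sets.
-/

set_option autoImplicit false
set_option linter.unusedSectionVars false

namespace KX

variable {V : Type} [DecidableEq V]

namespace Tr

/-- leaf positions -/
def Lf : Tr V → Type
  | leaf _ => Unit
  | node _ f p => Lf f ⊕ Lf p

/-- positions of the divided children -/
def Dv : Tr V → Type
  | leaf _ => Empty
  | node _ f p => Option (Dv f) ⊕ Dv p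

/-- label of a leaf position -/
def lb : (h : Tr V) → Lf h → Lbl V
  | leaf l, _ => l
  | node _ f _, Sum.inl x => lb f x
  | node _ _ p, Sum.inr x => lb p x

/-- subtree at a divided position -/
def sub : (h : Tr V) → Dv h → Tr V
  | leaf _, x => Empty.elim x
  | node _ f _, Sum.inl none => f
  | node _ f _, Sum.inl (some x) => sub f x
  | node _ _ p, Sum.inr x => sub p x

/-- the leaf position `x` lies below the divided position `y` -/
def inn : (h : Tr V) → Dv h → Lf h → Prop
  | leaf _, _, _ => False
  | node _ _ _, Sum.inl none, Sum.inl _ => True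
  | node _ f _, Sum.inl (some y), Sum.inl x => inn f y x
  | node _ _ p, Sum.inr y, Sum.inr x => inn p y x
  | node _ _ _, _, _ => False

instance instFintypeLf : (h : Tr V) → Fintype (Lf h)
  | leaf _ => inferInstanceAs (Fintype Unit)
  | node _ f p => @instFintypeSum _ _ (instFintypeLf f) (instFintypeLf p)

instance instFintypeDv : (h : Tr V) → Fintype (Dv h)
  | leaf _ => inferInstanceAs (Fintype Empty)
  | node _ f p => @instFintypeSum _ _ (@instFintypeOption _ (instFintypeDv f)) (instFintypeDv p)

noncomputable instance instDecEqLf (h : Tr V) : DecidableEq (Lf h) := Classical.decEq _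

noncomputable instance instDecEqDv (h : Tr V) : DecidableEq (Dv h) := Classical.decEq _

open Classical in
/-- leaf set of an element of `Option (Dv h)` (`none` stands for the whole tree) -/
noncomputable def ls (h : Tr V) : Option (Dv h) → Finset (Lf h)
  | none => Finset.univ
  | some y => Finset.univ.filter fun x => inn h y x

/-- subtree of an element of `Option (Dv h)` -/
def osub (h : Tr V) : Option (Dv h) → Tr V
  | none => h
  | some y => sub h y

open Classical in
theorem ls_none (h : Tr V) : ls h none = Finset.univ := rfl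

theorem mem_ls_some (h : Tr V) (y : Dv h) (x : Lf h) : x ∈ ls h (some y) ↔ inn h y x := by
  classical
  simp [ls]

theorem osub_inl (j : V) (f p : Tr V) (y : Option (Dv f)) :
    osub (node j f p) (some (Sum.inl y)) = osub f y := by
  cases y <;> rfl

theorem osub_inr (j : V) (f p : Tr V) (y : Dv p) :
    osub (node j f p) (some (Sum.inr y)) = osub p (some y) := rfl

theorem lb_inl (j : V) (f p : Tr V) (x : Lf f) : lb (node j f p) (Sum.inl x) = lb f x := rfl

theorem lb_inr (j : V) (f p : Tr V) (x : Lf p) : lb (node j f p) (Sum.inr x) = lb p x := rfl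

/-- inclusion of the leaf positions of the left child -/
def embL (j : V) (f p : Tr V) : Lf f ↪ Lf (node j f p) := ⟨Sum.inl, Sum.inl_injective⟩

/-- inclusion of the leaf positions of the right child -/
def embR (j : V) (f p : Tr V) : Lf p ↪ Lf (node j f p) := ⟨Sum.inr, Sum.inr_injective⟩

theorem lb_embL (j : V) (f p : Tr V) (x : Lf f) : lb (node j f p) (embL j f p x) = lb f x := rfl

theorem lb_embR (j : V) (f p : Tr V) (x : Lf p) : lb (node j f p) (embR j f p x) = lb p x := rfl

theorem ls_inl (j : V) (f p : Tr V) (y : Option (Dv f)) :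
    ls (node j f p) (some (Sum.inl y)) = (ls f y).map (embL j f p) := by
  classical
  ext x
  rw [Finset.mem_map]
  cases y with
  | none =>
    rcases x with x | x
    · refine ⟨fun _ => ⟨x, Finset.mem_univ _, rfl⟩, fun _ => ?_⟩
      exact (mem_ls_some (node j f p) (Sum.inl none) (Sum.inl x)).2 trivial
    · refine ⟨fun hx => ?_, fun hx => ?_⟩
      · exact ((mem_ls_some (node j f p) (Sum.inl none) (Sum.inr x)).1 hx).elim
      · obtain ⟨a, _, ha⟩ := hx
        cases ha
  | some y =>
    rcases x with x | x
    · refine ⟨fun hx => ⟨x, ?_, rfl⟩, fun hx => ?_⟩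
      · exact (mem_ls_some f y x).2 ((mem_ls_some (node j f p) (Sum.inl (some y)) (Sum.inl x)).1 hx)
      · obtain ⟨a, ha1, ha⟩ := hx
        cases ha
        exact (mem_ls_some (node j f p) (Sum.inl (some y)) (Sum.inl x)).2
          ((mem_ls_some f y x).1 ha1)
    · refine ⟨fun hx => ?_, fun hx => ?_⟩
      · exact ((mem_ls_some (node j f p) (Sum.inl (some y)) (Sum.inr x)).1 hx).elim
      · obtain ⟨a, _, ha⟩ := hx
        cases ha

theorem ls_inr (j : V) (f p : Tr V) (y : Dv p) :
    ls (node j f p) (some (Sum.inr y)) = (ls p (some y)).map (embR j f p) := by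
  classical
  ext x
  rw [Finset.mem_map]
  rcases x with x | x
  · refine ⟨fun hx => ?_, fun hx => ?_⟩
    · exact ((mem_ls_some (node j f p) (Sum.inr y) (Sum.inl x)).1 hx).elim
    · obtain ⟨a, _, ha⟩ := hx
      cases ha
  · refine ⟨fun hx => ⟨x, ?_, rfl⟩, fun hx => ?_⟩
    · exact (mem_ls_some p y x).2 ((mem_ls_some (node j f p) (Sum.inr y) (Sum.inr x)).1 hx)
    · obtain ⟨a, ha1, ha⟩ := hx
      cases ha
      exact (mem_ls_some (node j f p) (Sum.inr y) (Sum.inr x)).2 ((mem_ls_some p y x).1 ha1)

theorem sum_Lf_node {R : Type} [AddCommMonoid R] (j : V) (f p : Tr V) (F : Lf (node j f p) → R) :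
    ∑ x, F x = ∑ x, F (embL j f p x) + ∑ x, F (embR j f p x) :=
  Fintype.sum_sum_type (α₁ := Lf f) (α₂ := Lf p) F

theorem sum_Dv_leaf {R : Type} [AddCommMonoid R] (l : Lbl V) (F : Dv (leaf l) → R) :
    ∑ x, F x = 0 := by
  have : IsEmpty (Dv (leaf l)) := inferInstanceAs (IsEmpty Empty)
  exact Fintype.sum_empty F

theorem sum_Dv_node {R : Type} [AddCommMonoid R] (j : V) (f p : Tr V) (F : Dv (node j f p) → R) :
    ∑ x, F x = ∑ x : Option (Dv f), F (Sum.inl x) + ∑ x : Dv p, F (Sum.inr x) :=
  Fintype.sum_sum_type (α₁ := Option (Dv f)) (α₂ := Dv p) F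

/-- a sum over the divided positions of a node, including the root -/
theorem sum_oDv_node {R : Type} [AddCommMonoid R] (j : V) (f p : Tr V)
    (F : Option (Dv (node j f p)) → R) :
    ∑ x, F x = F none + (∑ x : Option (Dv f), F (some (Sum.inl x)) +
      ∑ x : Dv p, F (some (Sum.inr x))) := by
  rw [Fintype.sum_option, sum_Dv_node]

/-- number of divided positions -/
theorem card_Dv (h : Tr V) : Fintype.card (Dv h) + 1 = q h := by
  induction h with
  | leaf l =>
    have : IsEmpty (Dv (leaf l)) := inferInstanceAs (IsEmpty Empty)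
    rw [Fintype.card_eq_zero]
    rfl
  | node j f p hf hp =>
    have h1 : Fintype.card (Dv (node j f p)) = Fintype.card (Option (Dv f) ⊕ Dv p) := rfl
    rw [h1, Fintype.card_sum, Fintype.card_option, hf]
    show q f + Fintype.card (Dv p) + 1 = q f + q p
    omega

theorem card_Lf (h : Tr V) : Fintype.card (Lf h) = q h := by
  induction h with
  | leaf l => rfl
  | node j f p hf hp =>
    have h1 : Fintype.card (Lf (node j f p)) = Fintype.card (Lf f ⊕ Lf p) := rfl
    rw [h1, Fintype.card_sum, hf, hp]
    rfl

theorem sum_univ_ls {R : Type} [AddCommMonoid R] (F : Tr V → R) (g : Lbl V → R)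
    (hl : ∀ l, F (leaf l) = g l) (hn : ∀ j f p, F (node j f p) = F f + F p)
    (h : Tr V) : F h = ∑ x : Lf h, g (lb h x) := by
  induction h with
  | leaf l =>
    rw [hl]
    exact (Fintype.sum_unique (ι := Unit) (fun x => g (lb (leaf l) x))).symm
  | node j f p hf hp =>
    rw [hn, sum_Lf_node, hf, hp]
    rfl

/-- additive quantities are sums over the leaf sets (general form) -/
theorem sum_ls {R : Type} [AddCommMonoid R] (F : Tr V → R) (g : Lbl V → R)
    (hl : ∀ l, F (leaf l) = g l) (hn : ∀ j f p, F (node j f p) = F f + F p)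
    (h : Tr V) (y : Option (Dv h)) : F (osub h y) = ∑ x ∈ ls h y, g (lb h x) := by
  induction h with
  | leaf l =>
    cases y with
    | none => exact sum_univ_ls F g hl hn (leaf l)
    | some y => exact Empty.elim y
  | node j f p hf hp =>
    cases y with
    | none => exact sum_univ_ls F g hl hn (node j f p)
    | some y =>
      rcases y with y | y
      · rw [osub_inl, ls_inl, Finset.sum_map, hf y]
        rfl
      · rw [osub_inr, ls_inr, Finset.sum_map, hp (some y)]
        rfl

theorem Lf_nonempty (h : Tr V) : Nonempty (Lf h) := by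
  induction h with
  | leaf l => exact ⟨()⟩
  | node j f p hf hp => exact ⟨Sum.inl hf.some⟩

theorem ls_nonempty (h : Tr V) (y : Option (Dv h)) : (ls h y).Nonempty := by
  induction h with
  | leaf l =>
    cases y with
    | none => exact ⟨(), Finset.mem_univ _⟩
    | some y => exact Empty.elim y
  | node j f p hf hp =>
    cases y with
    | none => exact ⟨(Lf_nonempty (node j f p)).some, Finset.mem_univ _⟩
    | some y =>
      rcases y with y | y
      · rw [ls_inl]
        exact (hf y).map
      · rw [ls_inr]
        exact (hp (some y)).map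

end Tr

end KX
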