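import Mathlib

/-!
# Bounded Lipschitz dependence on the frequencies

`DD be w w' = ∑_j be j * min 1 |w j - w' j|`. `RB be Gd f b`: on `Gd` the function `f` is bounded by
`s` and Lipschitz with constant `l` for `DD be`, with `s + l ≤ b`.
-/

set_option autoImplicit false

namespace KX

variable {V : Type}

/-- distance of two frequency vectors -/
noncomputable def DD (be : V → ℝ) (w w' : V → ℝ) : ℝ := ∑' j, be j * min 1 |w j - w' j|

/-- bounded and Lipschitz on `Gd` -/
def RB (be : V → ℝ) (Gd : Set (V → ℝ)) (f : (V → ℝ) → ℂ) (b : ℝ) : Prop :=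
  ∃ s l : ℝ, 0 ≤ s ∧ 0 ≤ l ∧ s + l ≤ b ∧ (∀ w ∈ Gd, ‖f w‖ ≤ s) ∧
    ∀ w ∈ Gd, ∀ w' ∈ Gd, ‖f w - f w'‖ ≤ l * DD be w w'

theorem RBa_min_nonneg (x : ℝ) : 0 ≤ min 1 |x| := le_min zero_le_one (abs_nonneg x)

theorem RBa_term_nonneg (be : V → ℝ) (hb : ∀ j, 0 ≤ be j) (w w' : V → ℝ) (j : V) :
    0 ≤ be j * min 1 |w j - w' j| := mul_nonneg (hb j) (RBa_min_nonneg _)

theorem RBa_term_le (be : V → ℝ) (hb : ∀ j, 0 ≤ be j) (w w' : V → ℝ) (j : V) :
    be j * min 1 |w j - w' j| ≤ be j :=
  mul_le_of_le_one_right (hb j) (min_le_left _ _)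

theorem RBa_summable (be : V → ℝ) (hb : ∀ j, 0 ≤ be j) (hs : Summable be) (w w' : V → ℝ) :
    Summable fun j => be j * min 1 |w j - w' j| :=
  Summable.of_nonneg_of_le (RBa_term_nonneg be hb w w') (RBa_term_le be hb w w') hs

theorem DD_nonneg (be : V → ℝ) (hb : ∀ j, 0 ≤ be j) (w w' : V → ℝ) : 0 ≤ DD be w w' :=
  tsum_nonneg (RBa_term_nonneg be hb w w')

theorem DD_self (be : V → ℝ) (w : V → ℝ) : DD be w w = 0 := by
  simp [DD]

theorem DD_comm (be : V → ℝ) (w w' : V → ℝ) : DD be w w' = DD be w' w := by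
  unfold DD
  exact tsum_congr fun j => by rw [abs_sub_comm]

theorem DD_triangle (be : V → ℝ) (hb : ∀ j, 0 ≤ be j) (hs : Summable be) (w w' w'' : V → ℝ) :
    DD be w w'' ≤ DD be w w' + DD be w' w'' := by
  unfold DD
  rw [← (RBa_summable be hb hs w w').tsum_add (RBa_summable be hb hs w' w'')]
  refine (RBa_summable be hb hs w w'').tsum_le_tsum (fun j => ?_)
    ((RBa_summable be hb hs w w').add (RBa_summable be hb hs w' w''))
  rw [← mul_add]
  refine mul_le_mul_of_nonneg_left ?_ (hb j)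
  have h1 : |w j - w'' j| ≤ |w j - w' j| + |w' j - w'' j| := abs_sub_le _ _ _
  have h2 := RBa_min_nonneg (w j - w' j)
  have h3 := RBa_min_nonneg (w' j - w'' j)
  rcases le_total 1 |w j - w' j| with h4 | h4
  · rw [min_eq_left h4]
    have := min_le_left 1 |w j - w'' j|
    linarith
  · rcases le_total 1 |w' j - w'' j| with h5 | h5
    · rw [min_eq_left h5]
      have := min_le_left 1 |w j - w'' j|
      linarith
    · rw [min_eq_right h4, min_eq_right h5]
      exact (min_le_right _ _).trans h1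

theorem le_DD (be : V → ℝ) (hb : ∀ j, 0 ≤ be j) (hs : Summable be) (w w' : V → ℝ) (j : V) :
    be j * min 1 |w j - w' j| ≤ DD be w w' :=
  (RBa_summable be hb hs w w').le_tsum j fun i _ => RBa_term_nonneg be hb w w' i

/-- if `w` and `w'` agree outside the finite set `S` -/
theorem DD_le_sum [DecidableEq V] (be : V → ℝ) (hb : ∀ j, 0 ≤ be j) (S : Finset V) (w w' : V → ℝ)
    (h : ∀ j, j ∉ S → w j = w' j) : DD be w w' ≤ ∑ j ∈ S, be j * |w j - w' j| := by
  unfold DD
  rw [tsum_eq_sum (s := S)]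
  · exact Finset.sum_le_sum fun j _ => mul_le_mul_of_nonneg_left (min_le_right _ _) (hb j)
  · intro j hj
    rw [h j hj]
    simp

/-- continuity for the product topology -/
theorem DD_continuous (be : V → ℝ) (hb : ∀ j, 0 ≤ be j) (hs : Summable be) (w : V → ℝ) :
    Continuous fun w' => DD be w w' := by
  unfold DD
  refine continuous_tsum (fun j => ?_) hs (fun j w' => ?_)
  · exact continuous_const.mul (continuous_const.min
      (continuous_const.sub (continuous_apply j)).abs)
  · rw [Real.norm_eq_abs, abs_of_nonneg (RBa_term_nonneg be hb w w' j)]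
    exact RBa_term_le be hb w w' j

/-- a function which is Lipschitz for `DD` is continuous -/
theorem continuous_of_lip (be : V → ℝ) (hb : ∀ j, 0 ≤ be j) (hs : Summable be)
    (f : (V → ℝ) → ℝ) (l : ℝ) (hf : ∀ w w', |f w - f w'| ≤ l * DD be w w') : Continuous f := by
  rw [continuous_iff_continuousAt]
  intro w
  have h1 : Filter.Tendsto (fun w' => l * DD be w w') (nhds w) (nhds 0) := by
    have h2 := (continuous_const (y := l)).mul (DD_continuous be hb hs w)
    have h3 : Filter.Tendsto (fun w' => l * DD be w w') (nhds w) (nhds (l * DD be w w)) :=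
      h2.tendsto w
    rw [DD_self, mul_zero] at h3
    exact h3
  rw [ContinuousAt, tendsto_iff_dist_tendsto_zero]
  refine squeeze_zero (fun _ => dist_nonneg) (fun w' => ?_) h1
  rw [Real.dist_eq, abs_sub_comm]
  exact hf w w'

end KX
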