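import Pool.Agent.Lib.MP_73c19a_an.RBa

/-!
# Bounded Lipschitz dependence on the frequencies

`DD be w w' = ∑_j be j * min 1 |w j - w' j|`. `RB be Gd f b`: on `Gd` the function `f` is bounded by
`s` and Lipschitz with constant `l` for `DD be`, with `s + l ≤ b`.
-/

set_option autoImplicit false

namespace KX

variable {V : Type}

namespace RB

variable {be : V → ℝ} {Gd : Set (V → ℝ)}

theorem nonneg {f : (V → ℝ) → ℂ} {b : ℝ} (h : RB be Gd f b) : 0 ≤ b := by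
  obtain ⟨s, l, hs, hl, hsl, -, -⟩ := h
  linarith

theorem mono {f : (V → ℝ) → ℂ} {b b' : ℝ} (h : RB be Gd f b) (hb : b ≤ b') : RB be Gd f b' := by
  obtain ⟨s, l, hs, hl, hsl, h1, h2⟩ := h
  exact ⟨s, l, hs, hl, hsl.trans hb, h1, h2⟩

theorem subset {f : (V → ℝ) → ℂ} {b : ℝ} (h : RB be Gd f b) {Gd' : Set (V → ℝ)} (hG : Gd' ⊆ Gd) :
    RB be Gd' f b := by
  obtain ⟨s, l, hs, hl, hsl, h1, h2⟩ := h
  exact ⟨s, l, hs, hl, hsl, fun w hw => h1 w (hG hw), fun w hw w' hw' => h2 w (hG hw) w' (hG hw')⟩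

theorem norm_le {f : (V → ℝ) → ℂ} {b : ℝ} (h : RB be Gd f b) {w : V → ℝ} (hw : w ∈ Gd) :
    ‖f w‖ ≤ b := by
  obtain ⟨s, l, hs, hl, hsl, h1, h2⟩ := h
  exact (h1 w hw).trans (by linarith)

theorem lip_le (hb : ∀ j, 0 ≤ be j) {f : (V → ℝ) → ℂ} {b : ℝ} (h : RB be Gd f b) {w w' : V → ℝ}
    (hw : w ∈ Gd) (hw' : w' ∈ Gd) : ‖f w - f w'‖ ≤ b * DD be w w' := by
  obtain ⟨s, l, hs, hl, hsl, h1, h2⟩ := h
  exact (h2 w hw w' hw').trans
    (mul_le_mul_of_nonneg_right (by linarith) (DD_nonneg be hb w w'))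

theorem const (z : ℂ) : RB be Gd (fun _ => z) ‖z‖ :=
  ⟨‖z‖, 0, norm_nonneg z, le_refl 0, by simp, fun _ _ => le_refl _, fun _ _ _ _ => by simp⟩

theorem congr {f g : (V → ℝ) → ℂ} {b : ℝ} (h : RB be Gd f b) (hfg : ∀ w ∈ Gd, f w = g w) :
    RB be Gd g b := by
  obtain ⟨s, l, hs, hl, hsl, h1, h2⟩ := h
  refine ⟨s, l, hs, hl, hsl, fun w hw => ?_, fun w hw w' hw' => ?_⟩
  · rw [← hfg w hw]; exact h1 w hw
  · rw [← hfg w hw, ← hfg w' hw']; exact h2 w hw w' hw'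

theorem mul (hb : ∀ j, 0 ≤ be j) {f g : (V → ℝ) → ℂ} {b c : ℝ} (hf : RB be Gd f b)
    (hg : RB be Gd g c) : RB be Gd (fun w => f w * g w) (b * c) := by
  obtain ⟨s, l, hs, hl, hsl, h1, h2⟩ := hf
  obtain ⟨s', l', hs', hl', hsl', h1', h2'⟩ := hg
  refine ⟨s * s', l * s' + s * l', by positivity, by positivity, ?_, fun w hw => ?_,
    fun w hw w' hw' => ?_⟩
  · have e1 : (s + l) * (s' + l') ≤ b * c :=
      mul_le_mul hsl hsl' (by positivity) (by linarith)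
    nlinarith [mul_nonneg hl hl']
  · rw [norm_mul]
    exact mul_le_mul (h1 w hw) (h1' w hw) (norm_nonneg _) hs
  · have hD := DD_nonneg be hb w w'
    have e : f w * g w - f w' * g w' = (f w - f w') * g w + f w' * (g w - g w') := by ring
    rw [e]
    calc ‖(f w - f w') * g w + f w' * (g w - g w')‖
        ≤ ‖(f w - f w') * g w‖ + ‖f w' * (g w - g w')‖ := norm_add_le _ _
      _ = ‖f w - f w'‖ * ‖g w‖ + ‖f w'‖ * ‖g w - g w'‖ := by rw [norm_mul, norm_mul]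
      _ ≤ (l * DD be w w') * s' + s * (l' * DD be w w') := by
        apply add_le_add
        · exact mul_le_mul (h2 w hw w' hw') (h1' w hw) (norm_nonneg _) (by positivity)
        · exact mul_le_mul (h1 w' hw') (h2' w hw w' hw') (norm_nonneg _) hs
      _ = (l * s' + s * l') * DD be w w' := by ring

end RB

end KX
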