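import Pool.Agent.Lib.MP_73c19a_an.Posa
import Pool.Agent.Lib.MP_73c19a_an.Mg.G002
import Pool.Agent.Lib.MP_73c19a_an.Mg.G003

/-!
# Positions in trees

`Lf h`: the leaf positions, `Dv h`: the positions of the divided (left) children, with their
subtrees and leaf sets.
-/

set_option autoImplicit false
set_option linter.unusedSectionVars false

namespace KX

variable {V : Type} [DecidableEq V]

namespace Tr

/-- the cost of one divided position, relative to a site `i` of its cluster -/
theorem loc_root (G : Geo V) (h : Tr V) (hc : conn h) (i : V) (hi : i ∈ A h) (hk : k h ≠ 0) :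
    Real.log (G.brm (k h).support) - Real.log (1 + L G h) ≤ Real.log (G.br i) := by
  obtain ⟨i', hi', he⟩ := G.exists_brm (Finsupp.support_nonempty_iff.2 hk)
  have h1 := br_le_of_mem G h hc (k_supp h hi') hi
  have h2 : 0 < G.br i' := lt_of_lt_of_le one_pos (G.one_le_br i')
  have h3 : 0 < G.br i := lt_of_lt_of_le one_pos (G.one_le_br i)
  have h4 : (0 : ℝ) < 1 + L G h := by positivity
  have h5 := Real.log_le_log h2 h1
  rw [Real.log_mul h3.ne' h4.ne'] at h5
  rw [he]
  linarith

theorem sum_loc_aux (G : Geo V) (h : Tr V) (hc : conn h) (hk : ∀ y : Dv h, k (sub h y) ≠ 0) :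
    ∑ y : Dv h, (Real.log (G.brm (k (sub h y)).support) - Real.log (1 + L G (sub h y))) ≤
      mg (fun j => Real.log (G.br j)) h := by
  induction h with
  | leaf l =>
    rw [sum_Dv_leaf]
    exact le_rfl
  | node j f p hf hp =>
    obtain ⟨hjf, hjp, cf, cp⟩ := hc
    rw [sum_Dv_node, Fintype.sum_option]
    have e1 := hf cf fun y => hk (Sum.inl (some y))
    have e2 := hp cp fun y => hk (Sum.inr y)
    have e3 := loc_root G f cf j hjf (hk (Sum.inl none))
    have e4 : Real.log (G.br j) ≤ ∑ i ∈ A f ∩ A p, Real.log (G.br i) :=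
      Finset.single_le_sum (f := fun i => Real.log (G.br i))
        (fun i _ => Real.log_nonneg (G.one_le_br i)) (Finset.mem_inter.2 ⟨hjf, hjp⟩)
    have e5 : mg (fun j => Real.log (G.br j)) (node j f p) =
      (∑ i ∈ A f ∩ A p, Real.log (G.br i)) + mg (fun j => Real.log (G.br j)) f +
        mg (fun j => Real.log (G.br j)) p := rfl
    rw [e5]
    have s0 : sub (node j f p) (Sum.inl none) = f := rfl
    have s1 : ∀ y : Dv f, sub (node j f p) (Sum.inl (some y)) = sub f y := fun y => rfl
    have s2 : ∀ y : Dv p, sub (node j f p) (Sum.inr y) = sub p y := fun y => rfl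
    simp only [s0, s1, s2]
    linarith

/-- location costs: the divided position `y ≠ root` is attached at a site `j` of its cluster, which
is charged by `mg`; the root is charged to any site `i` of its cluster. -/
theorem sum_loc (G : Geo V) (h : Tr V) (hc : conn h) (i : V) (hi : i ∈ A h)
    (hk : ∀ y : Option (Dv h), k (osub h y) ≠ 0) :
    ∑ y : Option (Dv h), Real.log (G.brm (k (osub h y)).support) ≤
      Real.log (G.br i) + mg (fun j => Real.log (G.br j)) h +
        ∑ y : Option (Dv h), Real.log (1 + L G (osub h y)) := by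
  have e1 := sum_loc_aux G h hc fun y => hk (some y)
  have e2 := loc_root G h hc i hi (hk none)
  rw [Finset.sum_sub_distrib] at e1
  rw [Fintype.sum_option, Fintype.sum_option]
  have s0 : osub h none = h := rfl
  have s1 : ∀ y : Dv h, osub h (some y) = sub h y := fun y => rfl
  simp only [s0, s1]
  linarith

end Tr

end KX
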