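import Pool.Agent.Lib.MP_73c19a_an.Posc
import Pool.Agent.Lib.MP_73c19a_an.Posd

/-!
# The cost of the small divisors of a divided tree

`x y ≥ 0` is (the positive part of) `log (1 / |k_y · ω|)` for the divided positions `y` of `h`,
including the root. `hD` is the diophantine bound for every single divisor, `hJ` the joint bound for
linearly independent families. Proof of `cost_main` in `/team-store/MP_73c19a_PROOF.md`, Part C.
-/

set_option autoImplicit false

namespace KX

variable {V : Type} [DecidableEq V]

namespace Tr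

/-- `k` at a divided position -/
noncomputable def ky (h : Tr V) (y : Option (Dv h)) : V →₀ ℤ := k (osub h y)

/-- real vector of an integer vector -/
noncomputable def rv (k : V →₀ ℤ) : V → ℝ := fun i => ((k i : ℤ) : ℝ)

/-- number of sites of `supp (ky h y)` outside `B` -/
noncomputable def sg (B : Finset V) (h : Tr V) (y : Option (Dv h)) : ℕ := ((ky h y).support \ B).card

/-- `log (1 + x) ≤ e * x + log (1 / e)` for `0 < e ≤ 1`, `0 ≤ x` -/
theorem log_one_add_le (e x : ℝ) (he : 0 < e) (he1 : e ≤ 1) (hx : 0 ≤ x) :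
    Real.log (1 + x) ≤ e * x + Real.log (1 / e) := by
  have h1 : (1 + x) = (1 / e) * (e * (1 + x)) := by field_simp
  rw [h1, Real.log_mul (by positivity) (by positivity)]
  have h2 : Real.log (e * (1 + x)) ≤ e * (1 + x) - 1 :=
    Real.log_le_sub_one_of_pos (by positivity)
  linarith

theorem osub_good_Costa (G : Geo V) (P : BP V) (h : Tr V) (hg : Good G P h) (hk : k h ≠ 0)
    (y : Option (Dv h)) : Good G P (osub h y) ∧ k (osub h y) ≠ 0 := by
  cases y with
  | none => exact ⟨hg, hk⟩
  | some y =>
    obtain ⟨h1, -, h3, -⟩ := good_sub G P h hg y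
    exact ⟨h1, h3⟩

theorem card_opt_Costa (h : Tr V) : Fintype.card (Option (Dv h)) = q h := by
  rw [Fintype.card_option, card_Dv]

/-- the part of the diophantine cost which does not count sites, summed over any set of positions -/
theorem sum_D (G : Geo V) (P : BP V) (h : Tr V) (hg : Good G P h) (hd : deg h ≤ 1) (hk : k h ≠ 0)
    (T : ℕ) (hT : tau G P h < T) (lg bD dp e1 : ℝ) (hlg : 0 ≤ lg) (hbD : 0 ≤ bD) (hdp : 0 ≤ dp)
    (he : 0 < e1) (he1 : e1 ≤ 1) (S : Finset (Option (Dv h))) (i : V) (hi : i ∈ A h) :
    ∑ y ∈ S, (lg + bD * Real.log (G.brm (ky h y).support) +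
        dp * (G.Lam (ky h y).support + kab (ky h y))) ≤
      q h * (lg + bD * Real.log (1 / e1)) +
        bD * (Real.log (G.br i) + mg (fun j => Real.log (G.br j)) h) +
        T * (bD * e1 + dp) * (N h + L G h) := by
  have hlogb : ∀ y : Option (Dv h), 0 ≤ Real.log (G.brm (ky h y).support) := fun y =>
    Real.log_nonneg (G.one_le_brm _)
  have hnn : ∀ y : Option (Dv h), 0 ≤ lg + bD * Real.log (G.brm (ky h y).support) +
      dp * (G.Lam (ky h y).support + kab (ky h y)) := by
    intro y
    have := hlogb y
    positivity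
  have h1 : ∑ y ∈ S, (lg + bD * Real.log (G.brm (ky h y).support) +
        dp * (G.Lam (ky h y).support + kab (ky h y))) ≤
      ∑ y, (lg + bD * Real.log (G.brm (ky h y).support) +
        dp * (G.Lam (ky h y).support + kab (ky h y))) :=
    Finset.sum_le_sum_of_subset_of_nonneg (Finset.subset_univ _) (fun y _ _ => hnn y)
  refine h1.trans ?_
  rw [Finset.sum_add_distrib, Finset.sum_add_distrib, Finset.sum_const, Finset.card_univ,
    card_opt_Costa, nsmul_eq_mul, ← Finset.mul_sum, ← Finset.mul_sum]
  -- location costs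
  have h2 : ∑ y : Option (Dv h), Real.log (G.brm (ky h y).support) ≤
      Real.log (G.br i) + mg (fun j => Real.log (G.br j)) h +
        ∑ y : Option (Dv h), Real.log (1 + L G (osub h y)) :=
    sum_loc G h (good_conn G P h hg) i hi (fun y => (osub_good_Costa G P h hg hk y).2)
  have hL : ∑ y : Option (Dv h), (L G (osub h y) : ℝ) ≤ T * (L G h : ℝ) :=
    sum_osub_le G P h hg hd T hT (fun t => (L G t : ℝ)) (fun l => (G.Lam l.A : ℝ))
      (fun l => Nat.cast_nonneg _) (fun l => rfl) (fun j f p => by
        show ((L G f + L G p : ℕ) : ℝ) = _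
        push_cast
        rfl)
  have hN : ∑ y : Option (Dv h), (N (osub h y) : ℝ) ≤ T * (N h : ℝ) :=
    sum_osub_le G P h hg hd T hT (fun t => (N t : ℝ)) (fun l => (l.N : ℝ))
      (fun l => Nat.cast_nonneg _) (fun l => rfl) (fun j f p => by
        show ((N f + N p : ℕ) : ℝ) = _
        push_cast
        rfl)
  have h3 : ∑ y : Option (Dv h), Real.log (1 + L G (osub h y)) ≤
      e1 * (T * (L G h : ℝ)) + q h * Real.log (1 / e1) := by
    calc ∑ y : Option (Dv h), Real.log (1 + L G (osub h y)) ≤
        ∑ y : Option (Dv h), (e1 * (L G (osub h y) : ℝ) + Real.log (1 / e1)) :=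
          Finset.sum_le_sum fun y _ => log_one_add_le e1 _ he he1 (Nat.cast_nonneg _)
      _ = e1 * ∑ y : Option (Dv h), (L G (osub h y) : ℝ) + q h * Real.log (1 / e1) := by
          rw [Finset.sum_add_distrib, Finset.sum_const, Finset.card_univ, card_opt_Costa,
            nsmul_eq_mul, Finset.mul_sum]
      _ ≤ e1 * (T * (L G h : ℝ)) + q h * Real.log (1 / e1) := by
          have := mul_le_mul_of_nonneg_left hL he.le
          linarith
  have h4 : ∑ y : Option (Dv h), ((G.Lam (ky h y).support : ℝ) + kab (ky h y)) ≤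
      T * ((N h : ℝ) + L G h) := by
    calc ∑ y : Option (Dv h), ((G.Lam (ky h y).support : ℝ) + kab (ky h y)) ≤
        ∑ y : Option (Dv h), ((L G (osub h y) : ℝ) + N (osub h y)) := by
          refine Finset.sum_le_sum fun y _ => ?_
          have a1 : G.Lam (ky h y).support ≤ L G (osub h y) :=
            (G.Lam_mono (k_supp (osub h y))).trans
              (Lam_le_L G _ (good_conn G P _ (osub_good_Costa G P h hg hk y).1))
          have a2 : kab (ky h y) ≤ N (osub h y) :=
            (Nat.le_add_left _ _).trans (nk_le_N (osub h y))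
          have a1' : (G.Lam (ky h y).support : ℝ) ≤ L G (osub h y) := by exact_mod_cast a1
          have a2' : (kab (ky h y) : ℝ) ≤ N (osub h y) := by exact_mod_cast a2
          linarith
      _ ≤ T * ((N h : ℝ) + L G h) := by
          rw [Finset.sum_add_distrib]
          linarith
  have h5 := mul_le_mul_of_nonneg_left (h2.trans (add_le_add_right h3 _)) hbD
  have h6 := mul_le_mul_of_nonneg_left h4 hdp
  have h7 : 0 ≤ bD * e1 * (T * (N h : ℝ)) := by positivity
  nlinarith [h5, h6, h7]

/-- number of sites of the supports, summed: `|supp| ≤ |B| + sg` -/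
theorem sum_card_le (B : Finset V) (h : Tr V) (S : Finset (Option (Dv h))) :
    ∑ y ∈ S, ((ky h y).support.card : ℝ) ≤ q h * B.card + ∑ y ∈ S, (sg B h y : ℝ) := by
  have h1 : ∀ y ∈ S, ((ky h y).support.card : ℝ) ≤ (B.card : ℝ) + (sg B h y : ℝ) := by
    intro y _
    have h2 : (ky h y).support.card ≤ B.card + sg B h y := by
      unfold sg
      have h3 := Finset.card_sdiff_add_card_inter (ky h y).support B
      have h4 : ((ky h y).support ∩ B).card ≤ B.card := Finset.card_le_card
        Finset.inter_subset_right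
      omega
    exact_mod_cast h2
  have h2 : (S.card : ℝ) ≤ q h := by
    have h3 : S.card ≤ q h := by
      rw [← card_opt_Costa h]
      exact Finset.card_le_univ S
    exact_mod_cast h3
  calc ∑ y ∈ S, ((ky h y).support.card : ℝ) ≤ ∑ y ∈ S, ((B.card : ℝ) + (sg B h y : ℝ)) :=
        Finset.sum_le_sum h1
    _ = S.card * (B.card : ℝ) + ∑ y ∈ S, (sg B h y : ℝ) := by
        rw [Finset.sum_add_distrib, Finset.sum_const, nsmul_eq_mul]
    _ ≤ q h * B.card + ∑ y ∈ S, (sg B h y : ℝ) := by
        have := mul_le_mul_of_nonneg_right h2 (Nat.cast_nonneg (α := ℝ) B.card)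
        linarith

end Tr

end KX
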