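import Pool.Agent.Lib.MP_73c19a_an.Costa

/-!
# Small divisor conditions and products of divisors

`DC`, `JC`: the single and the joint diophantine conditions for a frequency vector `w`.
`hatY h`: the product of `max 1 (1 / |k_y · ω_{τ(y)}|)` over the divided positions of `h`.
`YY h`: the product of the inverse divisors themselves.
-/

set_option autoImplicit false

namespace KX

variable {V : Type} [DecidableEq V]

/-- `k · w` -/
noncomputable def dot (k : V →₀ ℤ) (w : V → ℝ) : ℝ := k.sum fun j x => (x : ℝ) * w j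

/-- `max (1, 1/|y|)` -/
noncomputable def mx (y : ℝ) : ℝ := max 1 |y|⁻¹

/-- Constants of the small divisor conditions. -/
structure CC where
  lg : ℝ
  bD : ℝ
  ell : ℝ
  dp : ℝ
  dpp : ℝ
  c : ℝ
  th : ℝ
  eta : ℝ
  e1 : ℝ
  bb : ℝ
  bq : ℝ
  qs : ℕ
  g : ℕ

/-- The constants are compatible with the mass parameters, for `T` elimination times. -/
structure CC.OK (C : CC) (G : Geo V) (P : BP V) (T : ℕ) : Prop where
  lg0 : 0 ≤ C.lg
  bD0 : 0 ≤ C.bD
  ell0 : 0 ≤ C.ell
  dp0 : 0 ≤ C.dp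
  dpp0 : 0 ≤ C.dpp
  c0 : 0 ≤ C.c
  th0 : 0 ≤ C.th
  eta0 : 0 < C.eta
  e0 : 0 < C.e1
  e1 : C.e1 ≤ 1
  bb0 : 0 ≤ C.bb
  bq0 : 0 ≤ C.bq
  g1 : 1 ≤ C.g
  C1 : C.lg + C.bD * Real.log (1 / C.e1) + C.ell * P.B.card ≤ C.th * P.mu
  C2 : C.ell * C.qs ≤ C.th * P.la
  C3 : T * (C.bD * C.e1 + C.dp) ≤ C.th * P.de
  C4 : T * C.ell * C.eta ≤ C.th * P.la
  C5 : ∀ i, i ∉ P.B → 4 * T * C.ell ≤ C.bb * Real.log (G.br i)
  C6 : 8 * C.g * C.ell ≤ C.th * P.la
  C7 : 8 * C.g * (C.ell * P.B.card + C.c + C.lg) ≤ C.th * P.mu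
  C8 : 8 * C.g * C.dpp ≤ C.th * P.de
  C9 : 8 * C.g * C.bD ≤ C.bq * C.qs
  Cg : 16 / C.eta ≤ (3 / 2 : ℝ) ^ (C.g - 1)
  C10 : Real.log 2 ≤ C.th * P.mu

/-- cost of a single divisor -/
noncomputable def dcost (G : Geo V) (C : CC) (k : V →₀ ℤ) : ℝ :=
  C.lg + C.bD * Real.log (G.brm k.support) + C.ell * k.support.card +
    C.dp * (G.Lam k.support + kab k)

/-- cost of a joint family in the tree `h` -/
noncomputable def jcost (G : Geo V) (C : CC) (h : Tr V) : ℝ :=
  2 * (C.bD * Real.log (G.brm (Tr.A h)) + C.ell * Tr.ca h + C.dpp * (Tr.N h + Tr.L G h) +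
    C.c * Tr.q h + C.lg)

/-- single diophantine condition -/
def DC (G : Geo V) (C : CC) (w : V → ℝ) : Prop :=
  ∀ k : V →₀ ℤ, k ≠ 0 → Real.exp (-dcost G C k) ≤ |dot k w|

/-- joint diophantine condition for the trees with at most `Am` sites -/
def JC (G : Geo V) (C : CC) (Am : ℝ) (w : V → ℝ) : Prop :=
  ∀ h : Tr V, Tr.conn h → ((Tr.A h).card : ℝ) ≤ Am → ∀ R : Finset (Option (Tr.Dv h)),
    LinearIndependent ℝ (fun y : R => Tr.rv (Tr.ky h y)) →
    ∏ y ∈ R, mx (dot (Tr.ky h y) w) ≤ Real.exp (jcost G C h)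

namespace Tr

/-- product of `max (1, 1/|divisor|)` over the divided positions -/
noncomputable def hatY (G : Geo V) (P : BP V) (om : ℕ → V → ℝ) : Tr V → ℝ
  | leaf _ => 1
  | node _ f p => hatY G P om f * mx (dot (k f) (om (tau G P f))) * hatY G P om p

/-- product of the inverse divisors -/
noncomputable def YY (G : Geo V) (P : BP V) (om : ℕ → V → ℝ) : Tr V → ℂ
  | leaf _ => 1
  | node _ f p => YY G P om f * (Complex.I * (dot (k f) (om (tau G P f)) : ℂ))⁻¹ * YY G P om p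

theorem one_le_mx (y : ℝ) : 1 ≤ mx y := le_max_left _ _

theorem one_le_hatY (G : Geo V) (P : BP V) (om : ℕ → V → ℝ) (h : Tr V) : 1 ≤ hatY G P om h := by
  induction h with
  | leaf l => exact le_rfl
  | node j f p ihf ihp =>
    show 1 ≤ hatY G P om f * mx (dot (k f) (om (tau G P f))) * hatY G P om p
    exact one_le_mul_of_one_le_of_one_le (one_le_mul_of_one_le_of_one_le ihf (one_le_mx _)) ihp

/-- `hatY` as a product over positions -/
theorem hatY_eq (G : Geo V) (P : BP V) (om : ℕ → V → ℝ) (h : Tr V) :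
    hatY G P om h = ∏ y : Dv h, mx (dot (k (sub h y)) (om (tau G P (sub h y)))) := by
  induction h with
  | leaf l =>
    symm
    exact Finset.prod_empty
  | node j f p ihf ihp =>
    show hatY G P om f * mx (dot (k f) (om (tau G P f))) * hatY G P om p =
      ∏ y : Option (Dv f) ⊕ Dv p, mx (dot (k (sub (node j f p) y))
        (om (tau G P (sub (node j f p) y))))
    rw [Fintype.prod_sum_type, Fintype.prod_option, ihf, ihp]
    show _ = (mx (dot (k f) (om (tau G P f))) *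
      ∏ y : Dv f, mx (dot (k (sub f y)) (om (tau G P (sub f y))))) *
      ∏ y : Dv p, mx (dot (k (sub p y)) (om (tau G P (sub p y))))
    ring

/-- the number of sites of a tree of mass at most `m`: `|A_h| ≤ q |B| + o ≤ (|B|/mu + 1/la) m` -/
theorem card_A_le (G : Geo V) (P : BP V) (h : Tr V) :
    ((A h).card : ℝ) ≤ (P.B.card / P.mu + 1 / P.la) * mass G P h := by
  have h1 : ((A h).card : ℝ) ≤ q h * P.B.card + o P.B h := by
    have := (card_le_ca h).trans (ca_le P.B h)
    exact_mod_cast this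
  have h2 : P.mu * q h ≤ mass G P h := mu_q_le_mass G P h
  have h3 : P.la * o P.B h ≤ mass G P h := by
    unfold mass
    have a1 : 0 ≤ P.mu * q h := mul_nonneg P.mu_pos.le (Nat.cast_nonneg _)
    have a2 : 0 ≤ P.de * ((N h : ℝ) + L G h) := mul_nonneg P.de_pos.le (by positivity)
    linarith
  have hmu := P.mu_pos
  have hla := P.la_pos
  have h4 : (q h : ℝ) ≤ mass G P h / P.mu := by
    rw [le_div_iff₀ hmu]
    linarith
  have h5 : (o P.B h : ℝ) ≤ mass G P h / P.la := by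
    rw [le_div_iff₀ hla]
    linarith
  have h6 : (q h : ℝ) * P.B.card ≤ mass G P h / P.mu * P.B.card :=
    mul_le_mul_of_nonneg_right h4 (Nat.cast_nonneg _)
  calc ((A h).card : ℝ) ≤ q h * P.B.card + o P.B h := h1
    _ ≤ mass G P h / P.mu * P.B.card + mass G P h / P.la := add_le_add h6 h5
    _ = (P.B.card / P.mu + 1 / P.la) * mass G P h := by ring

end Tr

end KX
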