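import Mathlib

/-!
# The model: definitions for the final statement

Sites `j : Fin d → ℤ`; a phase point is `(I, φ)` with `I j : ℝ` and `φ j : AddCircle (2π)`. The
Hamiltonian is `∑_j ω_j I_j + ε ∑_{(i,j), i ≠ j} f i j (I_i, I_j, φ_i, φ_j)`; the sum runs over
ordered pairs of different sites, which contains sums over unordered pairs (put `f i j = 0` for one
of the two orders).
-/

set_option autoImplicit false

namespace KamLattice

open MeasureTheory

/-- sites of the lattice `ℤ^d` -/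
abbrev Site (d : ℕ) := Fin d → ℤ

/-- an integer vector as a real vector -/
def iv {d : ℕ} (j : Site d) : Fin d → ℝ := fun a => (j a : ℝ)

/-- `N` is a norm on `ℝ^d` -/
structure IsNorm {d : ℕ} (N : (Fin d → ℝ) → ℝ) : Prop where
  pos : ∀ x, x ≠ 0 → 0 < N x
  smul : ∀ (c : ℝ) x, N (c • x) = |c| * N x
  add : ∀ x y, N (x + y) ≤ N x + N y

/-- the complex domain `|I_i|, |I_j| < r`, `|Im φ_i|, |Im φ_j| < s` -/
def Dom (r s : ℝ) : Set (ℂ × ℂ × ℂ × ℂ) :=
  {z | ‖z.1‖ < r ∧ ‖z.2.1‖ < r ∧ |z.2.2.1.im| < s ∧ |z.2.2.2.im| < s}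

/-- the class of interactions: `f i j (I_i, I_j, φ_i, φ_j)` is analytic on `Dom r s`, `2π`-periodic
in the angles, real for real arguments, and
`|f i j| ≤ C exp (-m |i - j|) (|I_i| + |I_j|)^2` on `Dom r s`. -/
structure IsInteraction {d : ℕ} (N : (Fin d → ℝ) → ℝ) (r s C m : ℝ)
    (f : Site d → Site d → ℂ × ℂ × ℂ × ℂ → ℂ) : Prop where
  analytic : ∀ i j, i ≠ j → AnalyticOnNhd ℂ (f i j) (Dom r s)
  per1 : ∀ i j, i ≠ j → ∀ x y φ ψ : ℂ, (x, y, φ, ψ) ∈ Dom r s →
    f i j (x, y, φ + 2 * Real.pi, ψ) = f i j (x, y, φ, ψ)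
  per2 : ∀ i j, i ≠ j → ∀ x y φ ψ : ℂ, (x, y, φ, ψ) ∈ Dom r s →
    f i j (x, y, φ, ψ + 2 * Real.pi) = f i j (x, y, φ, ψ)
  real : ∀ i j, i ≠ j → ∀ x y φ ψ : ℝ, ((x : ℂ), (y : ℂ), (φ : ℂ), (ψ : ℂ)) ∈ Dom r s →
    (f i j ((x : ℂ), (y : ℂ), (φ : ℂ), (ψ : ℂ))).im = 0
  bound : ∀ i j, i ≠ j → ∀ z ∈ Dom r s,
    ‖f i j z‖ ≤ C * Real.exp (-m * N (iv (i - j))) * (‖z.1‖ + ‖z.2.1‖) ^ 2

variable {d : ℕ}

/-- the terms with the sites `i, j` of `∂H/∂I_j`, without the factor `ε` -/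
noncomputable def dAct (f : Site d → Site d → ℂ × ℂ × ℂ × ℂ → ℂ) (I φ : Site d → ℝ)
    (j i : Site d) : ℂ :=
  if i = j then 0 else
    deriv (fun x : ℂ => f j i (x, (I i : ℂ), (φ j : ℂ), (φ i : ℂ))) (I j : ℂ) +
    deriv (fun x : ℂ => f i j ((I i : ℂ), x, (φ i : ℂ), (φ j : ℂ))) (I j : ℂ)

/-- the terms with the sites `i, j` of `∂H/∂φ_j`, without the factor `ε` -/
noncomputable def dAng (f : Site d → Site d → ℂ × ℂ × ℂ × ℂ → ℂ) (I φ : Site d → ℝ)
    (j i : Site d) : ℂ :=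
  if i = j then 0 else
    deriv (fun x : ℂ => f j i ((I j : ℂ), (I i : ℂ), x, (φ i : ℂ))) (φ j : ℂ) +
    deriv (fun x : ℂ => f i j ((I i : ℂ), (I j : ℂ), (φ i : ℂ), x)) (φ j : ℂ)

/-- phase points -/
abbrev Phase (d : ℕ) := (Site d → ℝ) × (Site d → AddCircle (2 * Real.pi))

/-- `x : ℝ → Phase d` is a trajectory: with suitable real lifts `φ` of the angles, actions and angles
are `C¹`, the actions stay in the domain of the interactions, all series converge and Hamilton's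
equations hold for every site and every time. -/
def IsTrajectory (f : Site d → Site d → ℂ × ℂ × ℂ × ℂ → ℂ) (r ε : ℝ) (ω : Site d → ℝ)
    (x : ℝ → Phase d) : Prop :=
  ∃ φ : ℝ → Site d → ℝ, (∀ t j, ((φ t j : ℝ) : AddCircle (2 * Real.pi)) = (x t).2 j) ∧
    (∀ j, ContDiff ℝ 1 fun t => (x t).1 j) ∧ (∀ j, ContDiff ℝ 1 fun t => φ t j) ∧
    ∀ t j, |(x t).1 j| < r ∧ Summable (dAct f (x t).1 (φ t) j) ∧
      Summable (dAng f (x t).1 (φ t) j) ∧
      ((deriv (fun t => (x t).1 j) t : ℝ) : ℂ) = -ε * ∑' i, dAng f (x t).1 (φ t) j i ∧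
      ((deriv (fun t => φ t j) t : ℝ) : ℂ) = ω j + ε * ∑' i, dAct f (x t).1 (φ t) j i

/-- `Ψ` parametrizes an infinite-dimensional invariant torus with frequency vector `wt`: it is
continuous and injective, all actions are positive on its image, and for every `θ` the motion
`t ↦ Ψ (θ + t wt)` is a trajectory, the only one through `Ψ θ`. -/
structure IsTorus (f : Site d → Site d → ℂ × ℂ × ℂ × ℂ → ℂ) (r ε : ℝ) (ω : Site d → ℝ)
    (Ψ : (Site d → AddCircle (2 * Real.pi)) → Phase d) (wt : Site d → ℝ) : Prop where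
  cont : Continuous Ψ
  inj : Function.Injective Ψ
  pos : ∀ (θ : Site d → AddCircle (2 * Real.pi)) (j : Site d), 0 < (Ψ θ).1 j
  traj : ∀ θ : Site d → AddCircle (2 * Real.pi), IsTrajectory f r ε ω fun t =>
    Ψ fun j => θ j + ((t * wt j : ℝ) : AddCircle (2 * Real.pi))
  uniq : ∀ (θ : Site d → AddCircle (2 * Real.pi)) (x : ℝ → Phase d),
    IsTrajectory f r ε ω x → x 0 = Ψ θ →
    ∀ t, x t = Ψ fun j => θ j + ((t * wt j : ℝ) : AddCircle (2 * Real.pi))

/-- the law of one frequency: density `(2/√π) exp (-ω^2)` on `ω > 0` -/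
noncomputable def law1 : Measure ℝ :=
  volume.withDensity fun x => if 0 < x then ENNReal.ofReal (2 / √Real.pi * Real.exp (-x ^ 2)) else 0

/-- the law of the frequencies: independent, all with the law `law1` -/
noncomputable def law (d : ℕ) : Measure (Site d → ℝ) := Measure.infinitePi fun _ => law1

/-- KAM tori exist near the actions `I0`: for every `η > 0` there is `ε0 > 0` such that for
`0 < ε < ε0`, for all frequencies in a measurable set of probability at least `1 - η`, there is an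
invariant torus containing a point whose actions `I` satisfy `|I_j - I0_j| ≤ I0_j / 2` for all `j`
(the trajectory through this point lies on the torus). -/
def KamToriNear (f : Site d → Site d → ℂ × ℂ × ℂ × ℂ → ℂ) (r : ℝ) (I0 : Site d → ℝ) : Prop :=
  ∀ η : ℝ, 0 < η → ∃ ε0 : ℝ, 0 < ε0 ∧ ∀ ε : ℝ, 0 < ε → ε < ε0 →
    ∃ E : Set (Site d → ℝ), MeasurableSet E ∧ ENNReal.ofReal (1 - η) ≤ law d E ∧
      ∀ ω ∈ E, ∃ (Ψ : (Site d → AddCircle (2 * Real.pi)) → Phase d) (wt : Site d → ℝ),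
        IsTorus f r ε ω Ψ wt ∧ ∃ θ : Site d → AddCircle (2 * Real.pi), ∀ j,
           |(Ψ θ).1 j - I0 j| ≤ I0 j / 2

end KamLattice
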