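import Pool.Agent.Lib.MP_73c19a_an.Dioa

/-!
# The Lie series on trees

`opX ka e u` is the tree form of the bracket with the generator `e`; `stp` one elimination step;
`cc` the universal coefficients, `cP` the product of the leaf coefficients and of the bracket
coefficients, `QQ` the majorants.
-/

set_option autoImplicit false

namespace KX

open scoped ENNReal

open Classical in
/-- `u` restricted to the trees with property `E` -/
noncomputable def rst {V R : Type} [Zero R] (E : Tr V → Prop) (u : Tr V → R) : Tr V → R :=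
  fun h => if E h then u h else 0

/-- the bracket with the generator `e`, on trees -/
def opX {V R : Type} [Semiring R] (ka : V → Tr V → Tr V → R) (e u : Tr V → R) : Tr V → R
  | Tr.leaf _ => 0
  | Tr.node j f p => ka j f p * e f * u p

/-- one elimination step `e^{X_F} u - ∑ X_F^m (rst E u) / (m+1)! - rst S u` -/
noncomputable def stp {V R : Type} [Field R] (ka : V → Tr V → Tr V → R) (e u : Tr V → R)
    (E S : Tr V → Prop) : Tr V → R :=
  fun h => (∑ m ∈ Finset.range (Tr.spine h + 1),
    (1 / (m.factorial : R)) * ((opX ka e)^[m] (fun h' => u h' - rst E u h' / (m + 1))) h) -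
      rst S u h

variable {V : Type} [DecidableEq V]

/-- a function on leaves, extended by `0` -/
def lf0 {R : Type} [Zero R] (b : Lbl V → R) : Tr V → R
  | Tr.leaf l => b l
  | Tr.node _ _ _ => 0

/-- universal coefficients -/
noncomputable def cc (G : Geo V) (P : BP V) : ℕ → Tr V → ℝ
  | 0 => lf0 fun _ => 1
  | t + 1 => stp (fun _ _ _ => 1) (rst (Tr.EE G P t) (cc G P t)) (cc G P t) (Tr.EE G P t)
      (Tr.SS G P t)

/-- product of the leaf coefficients and of the bracket coefficients `i kap` -/
noncomputable def cP (P0 : Lbl V → ℂ) : Tr V → ℂ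
  | Tr.leaf l => P0 l
  | Tr.node j f p => Complex.I * (Tr.kap j f p : ℂ) * cP P0 f * cP P0 p

/-- product of the leaf bounds and of the `|kap|` -/
noncomputable def chr (b : Lbl V → ℝ) : Tr V → ℝ
  | Tr.leaf l => b l
  | Tr.node j f p => |(Tr.kap j f p : ℝ)| * chr b f * chr b p

/-- `|kap|` in `ℝ≥0∞` -/
noncomputable def kae (j : V) (f p : Tr V) : ℝ≥0∞ := ((Tr.kap j f p).natAbs : ℝ≥0∞)

/-- majorants -/
noncomputable def QQ (G : Geo V) (P : BP V) (b : Lbl V → ℝ) : ℕ → Tr V → ℝ≥0∞
  | 0 => lf0 fun l => ENNReal.ofReal (b l)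
  | t + 1 => fun h => ∑ m ∈ Finset.range (Tr.spine h + 1), (1 / (m.factorial : ℝ≥0∞)) *
      ((opX kae (rst (Tr.EE G P t) (QQ G P b t)))^[m] (QQ G P b t)) h

/-- the generator at time `t`, for the perturbation `u` and the frequency `w` -/
noncomputable def gen (G : Geo V) (P : BP V) (t : ℕ) (w : V → ℝ) (u : Tr V → ℂ) : Tr V → ℂ :=
  rst (Tr.EE G P t) fun h => u h / (Complex.I * (dot (Tr.k h) w : ℂ))

/-- the bracket coefficient `i kap` -/
noncomputable def ika (j : V) (f p : Tr V) : ℂ := Complex.I * (Tr.kap j f p : ℂ)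

/-- the perturbation after one step at time `t` with the frequency `w` -/
noncomputable def nxt (G : Geo V) (P : BP V) (t : ℕ) (w : V → ℝ) (u : Tr V → ℂ) : Tr V → ℂ :=
  stp ika (gen G P t w u) u (Tr.EE G P t) (Tr.SS G P t)

/-- iterates of `opX` vanish on trees with a shorter spine -/
theorem opX_iter_eq_zero {R : Type} [Semiring R] (ka : V → Tr V → Tr V → R) (e u : Tr V → R)
    (m : ℕ) (h : Tr V) (hm : Tr.spine h < m) : ((opX ka e)^[m] u) h = 0 := by
  induction m generalizing h with
  | zero => exact absurd hm (Nat.not_lt_zero _)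
  | succ m ih =>
    rw [Function.iterate_succ_apply']
    cases h with
    | leaf l => rfl
    | node j f p =>
      have h1 : Tr.spine p < m := by
        have h2 : Tr.spine (Tr.node j f p) = Tr.spine p + 1 := rfl
        omega
      show ka j f p * e f * ((opX ka e)^[m] u) p = 0
      rw [ih p h1, mul_zero]

theorem chr_node_sa (b : Lbl V → ℝ) (j : V) (f p : Tr V) :
    chr b (Tr.node j f p) = |(Tr.kap j f p : ℝ)| * chr b f * chr b p := rfl

theorem rst_ne_zero_sa {R : Type} [Zero R] {E : Tr V → Prop} {u : Tr V → R} {h : Tr V}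
    (hne : rst E u h ≠ 0) : E h ∧ u h ≠ 0 := by
  unfold rst at hne
  by_cases hE : E h
  · rw [if_pos hE] at hne
    exact ⟨hE, hne⟩
  · rw [if_neg hE] at hne
    exact absurd rfl hne

/-- support of the iterates -/
private theorem opX_iter_support (G : Geo V) (P : BP V) (t : ℕ) (e u v : Tr V → ℝ)
    (he : ∀ f, e f ≠ 0 → Tr.EE G P t f ∧ u f ≠ 0) (hv : ∀ f, v f ≠ 0 → u f ≠ 0)
    (hu : ∀ h, u h ≠ 0 → chr (fun _ => 1) h ≠ 0 →
      Tr.Good G P h ∧ Tr.birth G P h ≤ t ∧ (Tr.deg h ≤ 1 → t ≤ Tr.tau G P h)) (m : ℕ) :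
    ∀ h, ((opX (fun _ _ _ => (1 : ℝ)) e)^[m] v) h ≠ 0 → chr (fun _ => 1) h ≠ 0 →
      Tr.Good G P h ∧ Tr.birth G P h ≤ t + 1 ∧ (Tr.deg h ≤ 1 → t ≤ Tr.tau G P h) ∧
        (1 ≤ m → Tr.deg h ≤ 1 → t + 1 ≤ Tr.tau G P h) := by
  induction m with
  | zero =>
    intro h h1 h2
    obtain ⟨h3, h4, h5⟩ := hu h (hv h h1) h2
    exact ⟨h3, by omega, h5, by omega⟩
  | succ m ih =>
    intro h h1 h2
    rw [Function.iterate_succ_apply'] at h1
    cases h with
    | leaf l => exact absurd rfl h1
    | node j f p =>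
      change 1 * e f * ((opX (fun _ _ _ => (1 : ℝ)) e)^[m] v) p ≠ 0 at h1
      rw [chr_node_sa] at h2
      have hef : e f ≠ 0 := by
        intro h0; rw [h0] at h1; simp at h1
      have hvp : ((opX (fun _ _ _ => (1 : ℝ)) e)^[m] v) p ≠ 0 := by
        intro h0; rw [h0] at h1; simp at h1
      have hkap : Tr.kap j f p ≠ 0 := by
        intro h0; rw [h0] at h2; simp at h2
      have hcf : chr (fun _ => 1) f ≠ 0 := by
        intro h0; rw [h0] at h2; simp at h2
      have hcp : chr (fun _ => 1) p ≠ 0 := by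
        intro h0; rw [h0] at h2; simp at h2
      obtain ⟨⟨hd, hk, htau⟩, huf⟩ := he f hef
      obtain ⟨hgf, -, -⟩ := hu f huf hcf
      obtain ⟨hgp, hbp, htp, -⟩ := ih p hvp hcp
      have hgood : Tr.Good G P (Tr.node j f p) := by
        refine ⟨hgf, hgp, hd, hk, hkap, ?_, ?_⟩
        · rw [htau]; exact hbp
        · rw [htau]; exact htp
      have hbirth : Tr.birth G P (Tr.node j f p) = t + 1 := by
        show Tr.tau G P f + 1 = t + 1
        rw [htau]
      have hfin : Tr.deg (Tr.node j f p) ≤ 1 → t + 1 ≤ Tr.tau G P (Tr.node j f p) := by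
        intro hdeg
        have := Tr.good_tau G P _ hgood hdeg
        rw [hbirth] at this
        exact this
      exact ⟨hgood, hbirth.le, fun hdeg => (Nat.le_succ t).trans (hfin hdeg),
        fun _ hdeg => hfin hdeg⟩

/-- support of the universal coefficients. Induction on `t`; for the iterates of `opX` show by
induction on `m` that `((opX _ e)^[m] u) h ≠ 0` implies: `Good h`, `birth h ≤ t + 1`, and, if
`deg h ≤ 1`, `t ≤ tau h`, and `t + 1 ≤ tau h` if `1 ≤ m` (by `good_tau`, as then
`birth h = t + 1`). The factor `kap ≠ 0` has to be added by hand: `cc` does not see `kap`, so the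
statement is for `cc * chr 1`. -/
theorem cc_support (G : Geo V) (P : BP V) (t : ℕ) (h : Tr V)
    (hne : cc G P t h * chr (fun _ => 1) h ≠ 0) :
    Tr.Good G P h ∧ Tr.birth G P h ≤ t ∧ (Tr.deg h ≤ 1 → t ≤ Tr.tau G P h) := by
  induction t generalizing h with
  | zero =>
    cases h with
    | leaf l => exact ⟨trivial, le_refl _, fun _ => Nat.zero_le _⟩
    | node j f p =>
      exfalso
      apply hne
      show (0 : ℝ) * _ = 0
      rw [zero_mul]
  | succ t ih =>
    have hc1 : cc G P (t + 1) h ≠ 0 := left_ne_zero_of_mul hne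
    have hc2 : chr (fun _ => 1) h ≠ 0 := right_ne_zero_of_mul hne
    have hu : ∀ h, cc G P t h ≠ 0 → chr (fun _ => 1) h ≠ 0 →
        Tr.Good G P h ∧ Tr.birth G P h ≤ t ∧ (Tr.deg h ≤ 1 → t ≤ Tr.tau G P h) :=
      fun h h1 h2 => ih h (mul_ne_zero h1 h2)
    set u := cc G P t with hudef
    set e := rst (Tr.EE G P t) u with hedef
    have hstp : cc G P (t + 1) h = (∑ m ∈ Finset.range (Tr.spine h + 1),
        (1 / (m.factorial : ℝ)) * ((opX (fun _ _ _ => (1 : ℝ)) e)^[m]
          (fun h' => u h' - rst (Tr.EE G P t) u h' / (m + 1))) h) - rst (Tr.SS G P t) u h := rfl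
    by_cases hex : ∃ m : ℕ, 1 ≤ m ∧ ((opX (fun _ _ _ => (1 : ℝ)) e)^[m]
          (fun h' => u h' - rst (Tr.EE G P t) u h' / (m + 1))) h ≠ 0
    · obtain ⟨m, hm, hmne⟩ := hex
      obtain ⟨h1, h2, -, h3⟩ := opX_iter_support G P t e u
        (fun h' => u h' - rst (Tr.EE G P t) u h' / (m + 1))
        (fun f hf => rst_ne_zero_sa hf)
        (by
          intro f hf h0
          apply hf
          have h4 : rst (Tr.EE G P t) u f = 0 := by
            by_contra h5
            exact (rst_ne_zero_sa h5).2 h0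
          show u f - rst (Tr.EE G P t) u f / (m + 1) = 0
          rw [h4, h0]; simp) hu m h hmne hc2
      exact ⟨h1, h2, h3 hm⟩
    · push Not at hex
      have h0 : cc G P (t + 1) h = u h - rst (Tr.EE G P t) u h - rst (Tr.SS G P t) u h := by
        rw [hstp, Finset.sum_range_succ']
        have h1 : ∑ k ∈ Finset.range (Tr.spine h), (1 / (((k + 1).factorial : ℕ) : ℝ)) *
            ((opX (fun _ _ _ => (1 : ℝ)) e)^[k + 1]
              (fun h' => u h' - rst (Tr.EE G P t) u h' / (((k + 1 : ℕ) : ℝ) + 1))) h = 0 := by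
          apply Finset.sum_eq_zero
          intro k _
          rw [hex (k + 1) (by omega), mul_zero]
        rw [h1]
        simp
      rw [h0] at hc1
      have huh : u h ≠ 0 := by
        intro h1
        apply hc1
        have h2 : rst (Tr.EE G P t) u h = 0 := by
          by_contra h5
          exact (rst_ne_zero_sa h5).2 h1
        have h3 : rst (Tr.SS G P t) u h = 0 := by
          by_contra h5
          exact (rst_ne_zero_sa h5).2 h1
        rw [h1, h2, h3]; simp
      obtain ⟨h1, h2, h3⟩ := hu h huh hc2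
      refine ⟨h1, by omega, ?_⟩
      intro hdeg
      have h4 := h3 hdeg
      have h5 : Tr.tau G P h ≠ t := by
        intro htau
        apply hc1
        by_cases hk : Tr.k h = 0
        · have hE : ¬ Tr.EE G P t h := fun hE => hE.2.1 hk
          have hS : Tr.SS G P t h := ⟨hdeg, hk, htau⟩
          unfold rst
          rw [if_neg hE, if_pos hS]; simp
        · have hE : Tr.EE G P t h := ⟨hdeg, hk, htau⟩
          have hS : ¬ Tr.SS G P t h := fun hS => hk hS.2.1
          unfold rst
          rw [if_pos hE, if_neg hS]; simp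
      omega

end KX
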