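import Pool.Agent.Lib.MP_73c19a_an.Costa

/-!
# Norms on trees

`nrQ wt x u = ∑_h u h * wt h * exp (x * N h)`. The weight is submultiplicative up to the factor `R`
(`hw`), and `∑_j |kap j f p| ≤ N f * N p`.
-/

set_option autoImplicit false

namespace KX

open scoped ENNReal

variable {V : Type} [DecidableEq V]

/-- monomial in the site weights -/
noncomputable def amon (G : Geo V) (n : V →₀ ℕ) : ℝ := n.prod fun j x => G.a j ^ x

/-- the weight of a tree; `sg` analyticity of the monomials, `kp` decay in the cluster length,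
`v j` site weights, `ch` the part of the mass, `w j` the charge of the common sites -/
noncomputable def wt (G : Geo V) (P : BP V) (rho sg kp ch : ℝ) (v w : V → ℝ) (h : Tr V) : ℝ :=
  rho ^ Tr.deg h * amon G (Tr.n h) * Real.exp (sg * Tr.N h + kp * Tr.L G h) * G.ainv (Tr.A h) *
    (∏ j ∈ Tr.A h, v j) * Real.exp (ch * Tr.mass G P h + Tr.mg w h)

private theorem tne_amon_add (G : Geo V) (n m : V →₀ ℕ) :
    amon G (n + m) = amon G n * amon G m := by
  unfold amon
  rw [Finsupp.prod_add_index']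
  · intro a
    simp
  · intro a b c
    exact pow_add _ _ _

private theorem tne_amon_single (G : Geo V) (j : V) : amon G (Finsupp.single j 1) = G.a j := by
  unfold amon
  rw [Finsupp.prod_single_index]
  · simp
  · simp

private theorem tne_amon_pos (G : Geo V) (n : V →₀ ℕ) : 0 < amon G n := by
  unfold amon
  exact Finset.prod_pos fun j _ => pow_pos (G.a_pos j) _

theorem wt_node_le (G : Geo V) (P : BP V) (rho sg kp ch : ℝ) (v w : V → ℝ) (hr : 0 < rho)
    (hv : ∀ j, Real.exp (w j) ≤ v j) (j : V) (f p : Tr V) (hk : Tr.kap j f p ≠ 0) :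
    wt G P rho sg kp ch v w (Tr.node j f p) ≤
      (1 / rho) * wt G P rho sg kp ch v w f * wt G P rho sg kp ch v w p := by
  obtain ⟨hjf, hjp⟩ := Tr.kap_mem j f p hk
  have hdeg := Tr.deg_node j f p hk
  -- exponent of the actions
  have hn1 : 1 ≤ (Tr.n f + Tr.n p) j := by
    by_contra hcon
    push Not at hcon
    have h0 : Tr.n f j + Tr.n p j = 0 := by
      have : (Tr.n f + Tr.n p) j = Tr.n f j + Tr.n p j := Finsupp.add_apply _ _ _
      omega
    have h1 : Tr.n f j = 0 := by omega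
    have h2 : Tr.n p j = 0 := by omega
    apply hk
    simp [Tr.kap, h1, h2]
  have hn2 : Tr.n (Tr.node j f p) + Finsupp.single j 1 = Tr.n f + Tr.n p := by
    ext i
    simp only [Tr.n, Finsupp.add_apply, Finsupp.tsub_apply]
    by_cases hi : i = j
    · subst hi
      rw [Finsupp.add_apply] at hn1
      simp only [Finsupp.single_eq_same]
      omega
    · rw [Finsupp.single_eq_of_ne hi]
      omega
  have hamon : amon G (Tr.n (Tr.node j f p)) * G.a j = amon G (Tr.n f) * amon G (Tr.n p) := by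
    rw [← tne_amon_single G j, ← tne_amon_add, hn2, tne_amon_add]
  have haj := G.a_pos j
  have hamon' : amon G (Tr.n (Tr.node j f p)) =
      (G.a j)⁻¹ * (amon G (Tr.n f) * amon G (Tr.n p)) := by
    rw [← hamon]
    field_simp
  have hrho : rho ^ Tr.deg (Tr.node j f p) = (1 / rho) * (rho ^ Tr.deg f * rho ^ Tr.deg p) := by
    rw [← pow_add, ← hdeg, pow_succ]
    field_simp
  have hv0 : ∀ i, 0 < v i := fun i => (Real.exp_pos _).trans_le (hv i)
  -- site weights
  have hprod : (∏ i ∈ Tr.A f ∪ Tr.A p, v i) * Real.exp (∑ i ∈ Tr.A f ∩ Tr.A p, w i) ≤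
      (∏ i ∈ Tr.A f, v i) * ∏ i ∈ Tr.A p, v i := by
    rw [← Finset.prod_union_inter, Real.exp_sum]
    apply mul_le_mul_of_nonneg_left _ (Finset.prod_nonneg fun i _ => (hv0 i).le)
    exact Finset.prod_le_prod (fun i _ => (Real.exp_pos _).le) (fun i _ => hv i)
  have hainv := G.ainv_union hjf hjp
  have hainv0 : ∀ S, 0 < G.ainv S := fun S => one_pos.trans_le (G.one_le_ainv S)
  -- exponentials
  have hexp1 : Real.exp (sg * Tr.N (Tr.node j f p) + kp * Tr.L G (Tr.node j f p)) =
      Real.exp (sg * Tr.N f + kp * Tr.L G f) * Real.exp (sg * Tr.N p + kp * Tr.L G p) := by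
    rw [← Real.exp_add]
    congr 1
    simp only [Tr.N, Tr.L]
    push_cast
    ring
  have hexp2 : Real.exp (ch * Tr.mass G P (Tr.node j f p) + Tr.mg w (Tr.node j f p)) =
      Real.exp (∑ i ∈ Tr.A f ∩ Tr.A p, w i) *
        (Real.exp (ch * Tr.mass G P f + Tr.mg w f) *
          Real.exp (ch * Tr.mass G P p + Tr.mg w p)) := by
    rw [← Real.exp_add, ← Real.exp_add]
    congr 1
    rw [Tr.mass_node]
    simp only [Tr.mg]
    ring
  unfold wt
  rw [hrho, hamon', hexp1, hexp2]
  have hA : Tr.A (Tr.node j f p) = Tr.A f ∪ Tr.A p := rfl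
  rw [hA]
  set e1 := Real.exp (sg * Tr.N f + kp * Tr.L G f) with he1
  set e2 := Real.exp (sg * Tr.N p + kp * Tr.L G p) with he2
  set e3 := Real.exp (ch * Tr.mass G P f + Tr.mg w f) with he3
  set e4 := Real.exp (ch * Tr.mass G P p + Tr.mg w p) with he4
  set e5 := Real.exp (∑ i ∈ Tr.A f ∩ Tr.A p, w i) with he5
  have p1 : 0 < e1 := Real.exp_pos _
  have p2 : 0 < e2 := Real.exp_pos _
  have p3 : 0 < e3 := Real.exp_pos _
  have p4 : 0 < e4 := Real.exp_pos _
  have p5 := tne_amon_pos G (Tr.n f)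
  have p6 := tne_amon_pos G (Tr.n p)
  have p7 : 0 ≤ ∏ i ∈ Tr.A f ∪ Tr.A p, v i := Finset.prod_nonneg fun i _ => (hv0 i).le
  calc 1 / rho * (rho ^ Tr.deg f * rho ^ Tr.deg p) *
        ((G.a j)⁻¹ * (amon G (Tr.n f) * amon G (Tr.n p))) * (e1 * e2) *
        G.ainv (Tr.A f ∪ Tr.A p) * (∏ j ∈ Tr.A f ∪ Tr.A p, v j) * (e5 * (e3 * e4))
      = (1 / rho * (rho ^ Tr.deg f * rho ^ Tr.deg p) * (amon G (Tr.n f) * amon G (Tr.n p)) *
        (e1 * e2) * (e3 * e4)) * (((G.a j)⁻¹ * G.ainv (Tr.A f ∪ Tr.A p)) *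
          ((∏ j ∈ Tr.A f ∪ Tr.A p, v j) * e5)) := by ring
    _ ≤ (1 / rho * (rho ^ Tr.deg f * rho ^ Tr.deg p) * (amon G (Tr.n f) * amon G (Tr.n p)) *
        (e1 * e2) * (e3 * e4)) * ((G.ainv (Tr.A f) * G.ainv (Tr.A p)) *
          ((∏ i ∈ Tr.A f, v i) * ∏ i ∈ Tr.A p, v i)) := by
        apply mul_le_mul_of_nonneg_left _ (by positivity)
        apply mul_le_mul hainv hprod
        · exact mul_nonneg p7 (Real.exp_pos _).le
        · exact mul_nonneg (hainv0 _).le (hainv0 _).le
    _ = _ := by ring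

end KX
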