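import Pool.Agent.Lib.MP_73c19a_an.RBb
import Pool.Agent.Lib.MP_73c19a_an.Schemea
import Pool.Agent.Lib.MP_73c19a_an.TNorme

/-!
# One block of the scheme

The state consists of the perturbation `u` (on trees, depending on the frequency parameter `w`), the
frequency shift `c` (defined for all `w`) and the good set `Gd`. The block has `2 L` inner steps.
-/

set_option autoImplicit false

namespace KX

open scoped ENNReal

variable {V : Type} [DecidableEq V]

/-- state of the scheme -/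
structure RS (V : Type) where
  u : Tr V → (V → ℝ) → ℂ
  c : V → (V → ℝ) → ℝ
  Gd : Set (V → ℝ)

/-- frequency vector for the parameter `w` -/
def frq (c : V → (V → ℝ) → ℝ) (w : V → ℝ) : V → ℝ := fun j => w j + c j w

/-- data of a block: mass parameters, constants of the divisor conditions, number `2 L` of inner
steps, loss `y` per inner step, scale `rho`, exponents `sg`, `kp` and site weights `v` at the end -/
structure Blk (V : Type) where
  P : BP V
  C : CC
  Am : ℝ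
  L : ℕ
  y : ℝ
  rho : ℝ
  sg : ℝ
  kp : ℝ
  v : V → ℝ

/-- exponents and site weights at the beginning of the block -/
noncomputable def Blk.ch (K : Blk V) : ℝ := 1 / 2 + 9 * K.C.th

noncomputable def Blk.sg0 (K : Blk V) : ℝ := K.sg + 2 * K.y * (2 * K.L : ℕ) + K.ch * K.P.de

noncomputable def Blk.kp0 (K : Blk V) : ℝ := K.kp + K.ch * K.P.de

noncomputable def Blk.v0 (K : Blk V) (j : V) : ℝ :=
  K.v j * Real.exp (if j ∈ K.P.B then 0 else K.ch * K.P.la)

/-- charge of the common sites -/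
noncomputable def Blk.w2 (K : Blk V) (G : Geo V) (bB : ℝ) (j : V) : ℝ :=
  (2 * (K.C.bD + K.C.bb + K.C.bq) + bB) * Real.log (G.br j)

/-- the bound of the divisors -/
noncomputable def Blk.Z (K : Blk V) (G : Geo V) (bB : ℝ) (h : Tr V) : ℝ :=
  Real.exp (9 * K.C.th * Tr.mass G K.P h + Tr.mg (K.w2 G bB) h)

/-- Lipschitz bound of the shift of the frequency at the site `j` at time `t` -/
noncomputable def Blk.lb (K : Blk V) (t : ℕ) (j : V) : ℝ :=
  2 * (K.v j)⁻¹ * Real.exp (-(1 / 2) * (K.P.mu * (3 / 2 : ℝ) ^ (t / 2)) - (3 / 8) * K.P.mu)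

/-- weight of a label -/
noncomputable def Wl (G : Geo V) (rho sg kp : ℝ) (v : V → ℝ) (l : Lbl V) : ℝ :=
  rho ^ dgr l.n * amon G l.n * Real.exp (sg * l.N + kp * G.Lam l.A) * G.ainv l.A * ∏ j ∈ l.A, v j

/-- shift of the frequency at time `t` -/
noncomputable def shc (G : Geo V) (P : BP V) (t : ℕ) (u : Tr V → (V → ℝ) → ℂ) (j : V)
    (w : V → ℝ) : ℂ :=
  ∑' h, rst (fun h => Tr.SS G P t h ∧ Tr.n h = Finsupp.single j 1) (fun h => u h w) h

/-- one inner step -/
noncomputable def rstep (G : Geo V) (be : V → ℝ) (K : Blk V) (t : ℕ) (S : RS V) : RS V where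
  u := fun h w => nxt G K.P t (frq S.c w) (fun h' => S.u h' w) h
  c := fun j w => S.c j w + extL be
    (S.Gd ∩ {w | DC G K.C (frq S.c w) ∧ JC G K.C K.Am (frq S.c w)}) (K.lb t j)
    (fun w => (shc G K.P t S.u j w).re) w
  Gd := S.Gd ∩ {w | DC G K.C (frq S.c w) ∧ JC G K.C K.Am (frq S.c w)}

/-- the states of the block -/
noncomputable def run (G : Geo V) (be : V → ℝ) (K : Blk V) (S : RS V) : ℕ → RS V
  | 0 => S
  | t + 1 => rstep G be K t (run G be K S t)

/-- label of a tree -/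
noncomputable def lab (h : Tr V) : Lbl V := ⟨Tr.A h, Tr.n h, Tr.k h, Tr.n_supp h, Tr.k_supp h⟩

/-- leaf coefficients for the next block -/
noncomputable def pnext (u : Tr V → (V → ℝ) → ℂ) (l : Lbl V) (w : V → ℝ) : ℂ :=
  ∑' h, rst (fun h => lab h = l) (fun h => u h w) h

/-- conjugate label -/
noncomputable def Lbl.conj (l : Lbl V) : Lbl V := ⟨l.A, l.n, -l.k, l.hn, by
  intro i hi
  exact l.hk (by simpa using hi)⟩

/-- conditions on the data of a block -/
structure Blk.OK (K : Blk V) (G : Geo V) (be : V → ℝ) (bB : ℝ) : Prop where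
  C : K.C.OK G K.P (2 * K.L)
  be0 : ∀ j, 0 < be j
  bes : Summable be
  bB0 : 0 ≤ bB
  br : ∀ j, (be j)⁻¹ ≤ (G.br j) ^ bB
  L1 : 1 ≤ K.L
  y0 : 0 < K.y
  rho0 : 0 < K.rho
  sg0 : 0 ≤ K.sg
  kp0 : 0 ≤ K.kp
  th1 : K.C.th ≤ 1 / 72
  v1 : ∀ j, Real.exp (K.w2 G bB j) ≤ K.v j
  vD : ∀ j, (G.br j) ^ K.C.bD ≤ K.v j
  Am1 : (K.P.B.card / K.P.mu + 1 / K.P.la) * (K.P.mu * (3 / 2 : ℝ) ^ K.L) ≤ K.Am
  C11 : ∀ m : ℝ, K.P.mu ≤ m → 4 * (2 * K.L : ℕ) * (m / K.P.de) ≤
    Real.exp ((1 / 3 - 3 * K.C.th) * m)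
  C12 : ∀ m : ℝ, K.P.mu ≤ m → 1 + 4 * (m / K.P.mu) * (m / K.P.de) * (1 + m / K.P.de) ^ bB ≤
    Real.exp (K.C.th * m)
  C13 : 24 * (2 * K.L : ℕ) * Real.exp (-(3 / 8) * K.P.mu) ≤ K.y ^ 2

end KX
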