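import Pool.Agent.Lib.MP_73c19a_an.Run2a

/-!
# One block of the scheme: the invariants
-/

set_option autoImplicit false
set_option linter.unusedSectionVars false

namespace KX

open scoped ENNReal

variable {V : Type} [DecidableEq V]

/-- conjugate tree -/
noncomputable def Tr.conj : Tr V → Tr V
  | Tr.leaf l => Tr.leaf l.conj
  | Tr.node j f p => Tr.node j (Tr.conj f) (Tr.conj p)

theorem Lbl_conj_conj_R2b (l : Lbl V) : l.conj.conj = l := by
  ext1
  · rfl
  · rfl
  · simp [Lbl.conj]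

theorem Tr_conj_conj_R2b (h : Tr V) : Tr.conj (Tr.conj h) = h := by
  induction h with
  | leaf l => simp only [Tr.conj, Lbl_conj_conj_R2b]
  | node j f p ihf ihp => simp only [Tr.conj, ihf, ihp]

theorem kab_neg_R2b (k : V →₀ ℤ) : kab (-k) = kab k := by
  unfold kab
  rw [Finsupp.sum, Finsupp.sum, Finsupp.support_neg]
  refine Finset.sum_congr rfl fun i _ => ?_
  simp

theorem A_conj_R2b (h : Tr V) : Tr.A (Tr.conj h) = Tr.A h := by
  induction h with
  | leaf l => rfl
  | node j f p ihf ihp => simp only [Tr.conj, Tr.A, ihf, ihp]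

theorem n_conj_R2b (h : Tr V) : Tr.n (Tr.conj h) = Tr.n h := by
  induction h with
  | leaf l => rfl
  | node j f p ihf ihp => simp only [Tr.conj, Tr.n, ihf, ihp]

theorem k_conj_R2b (h : Tr V) : Tr.k (Tr.conj h) = -Tr.k h := by
  induction h with
  | leaf l => rfl
  | node j f p ihf ihp =>
    simp only [Tr.conj, Tr.k, ihf, ihp]
    abel

theorem q_conj_R2b (h : Tr V) : Tr.q (Tr.conj h) = Tr.q h := by
  induction h with
  | leaf l => rfl
  | node j f p ihf ihp => simp only [Tr.conj, Tr.q, ihf, ihp]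

theorem N_conj_R2b (h : Tr V) : Tr.N (Tr.conj h) = Tr.N h := by
  induction h with
  | leaf l =>
    change dgr l.n + kab (-l.k) = dgr l.n + kab l.k
    rw [kab_neg_R2b]
  | node j f p ihf ihp => simp only [Tr.conj, Tr.N, ihf, ihp]

theorem L_conj_R2b (G : Geo V) (h : Tr V) : Tr.L G (Tr.conj h) = Tr.L G h := by
  induction h with
  | leaf l => rfl
  | node j f p ihf ihp => simp only [Tr.conj, Tr.L, ihf, ihp]

theorem o_conj_R2b (B : Finset V) (h : Tr V) : Tr.o B (Tr.conj h) = Tr.o B h := by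
  induction h with
  | leaf l => rfl
  | node j f p ihf ihp => simp only [Tr.conj, Tr.o, ihf, ihp]

theorem spine_conj_R2b (h : Tr V) : Tr.spine (Tr.conj h) = Tr.spine h := by
  induction h with
  | leaf l => rfl
  | node j f p ihf ihp => simp only [Tr.conj, Tr.spine, ihp]

theorem mass_conj_R2b (G : Geo V) (P : BP V) (h : Tr V) :
    Tr.mass G P (Tr.conj h) = Tr.mass G P h := by
  unfold Tr.mass
  rw [q_conj_R2b, N_conj_R2b, L_conj_R2b, o_conj_R2b]

theorem deg_conj_R2b (h : Tr V) : Tr.deg (Tr.conj h) = Tr.deg h := by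
  unfold Tr.deg
  rw [n_conj_R2b]

theorem tau_conj_R2b (G : Geo V) (P : BP V) (h : Tr V) :
    Tr.tau G P (Tr.conj h) = Tr.tau G P h := by
  unfold Tr.tau Tr.win
  rw [mass_conj_R2b, deg_conj_R2b]

theorem EE_conj_R2b (G : Geo V) (P : BP V) (t : ℕ) (h : Tr V) :
    Tr.EE G P t (Tr.conj h) ↔ Tr.EE G P t h := by
  unfold Tr.EE
  rw [tau_conj_R2b, deg_conj_R2b, k_conj_R2b, neg_ne_zero]

theorem SS_conj_R2b (G : Geo V) (P : BP V) (t : ℕ) (h : Tr V) :
    Tr.SS G P t (Tr.conj h) ↔ Tr.SS G P t h := by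
  unfold Tr.SS
  rw [tau_conj_R2b, deg_conj_R2b, k_conj_R2b, neg_eq_zero]

theorem rst_conj_R2b {R : Type} [Zero R] (E : Tr V → Prop) (u : Tr V → R)
    (hE : ∀ h, E (Tr.conj h) ↔ E h) (hu : ∀ h, u (Tr.conj h) = u h) (h : Tr V) :
    rst E u (Tr.conj h) = rst E u h := by
  unfold rst
  by_cases h1 : E h
  · rw [if_pos h1, if_pos ((hE h).2 h1), hu]
  · rw [if_neg h1, if_neg fun h2 => h1 ((hE h).1 h2)]

theorem opX_conj_R2b (e u : Tr V → ℝ) (he : ∀ h, e (Tr.conj h) = e h)
    (hu : ∀ h, u (Tr.conj h) = u h) (h : Tr V) :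
    opX (fun _ _ _ => 1) e u (Tr.conj h) = opX (fun _ _ _ => 1) e u h := by
  cases h with
  | leaf l => rfl
  | node j f p => simp only [Tr.conj, opX, he, hu]

theorem opX_iter_conj_R2b (e u : Tr V → ℝ) (he : ∀ h, e (Tr.conj h) = e h)
    (hu : ∀ h, u (Tr.conj h) = u h) (m : ℕ) (h : Tr V) :
    ((opX (fun _ _ _ => 1) e)^[m] u) (Tr.conj h) = ((opX (fun _ _ _ => 1) e)^[m] u) h := by
  induction m generalizing h with
  | zero => exact hu h
  | succ m ih =>
    rw [Function.iterate_succ_apply']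
    exact opX_conj_R2b e _ he ih h

theorem cc_conj_R2b (G : Geo V) (P : BP V) (t : ℕ) (h : Tr V) :
    cc G P t (Tr.conj h) = cc G P t h := by
  induction t generalizing h with
  | zero =>
    cases h with
    | leaf l => rfl
    | node j f p => rfl
  | succ t ih =>
    simp only [cc, stp]
    rw [spine_conj_R2b, rst_conj_R2b _ _ (SS_conj_R2b G P t) ih]
    congr 1
    refine Finset.sum_congr rfl fun m _ => ?_
    congr 1
    apply opX_iter_conj_R2b
    · exact rst_conj_R2b _ _ (EE_conj_R2b G P t) ih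
    · intro h'
      rw [rst_conj_R2b _ _ (EE_conj_R2b G P t) ih, ih]

theorem kap_conj_R2b (j : V) (f p : Tr V) :
    Tr.kap j (Tr.conj f) (Tr.conj p) = -Tr.kap j f p := by
  unfold Tr.kap
  rw [n_conj_R2b, n_conj_R2b, k_conj_R2b, k_conj_R2b]
  simp only [Finsupp.neg_apply]
  ring

theorem cP_conj_R2b (P0 : Lbl V → ℂ) (hP : ∀ l, P0 l.conj = (starRingEnd ℂ) (P0 l)) (h : Tr V) :
    cP P0 (Tr.conj h) = (starRingEnd ℂ) (cP P0 h) := by
  induction h with
  | leaf l => exact hP l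
  | node j f p ihf ihp =>
    simp only [Tr.conj, cP, ihf, ihp, kap_conj_R2b, map_mul, Complex.conj_I, map_intCast]
    push_cast
    ring

theorem dot_neg_R2b (k : V →₀ ℤ) (w : V → ℝ) : dot (-k) w = -dot k w := by
  unfold dot
  rw [Finsupp.sum, Finsupp.sum, Finsupp.support_neg, ← Finset.sum_neg_distrib]
  refine Finset.sum_congr rfl fun i _ => ?_
  simp

theorem YY_conj_R2b (G : Geo V) (P : BP V) (om : ℕ → V → ℝ) (h : Tr V) :
    Tr.YY G P om (Tr.conj h) = (starRingEnd ℂ) (Tr.YY G P om h) := by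
  induction h with
  | leaf l => simp [Tr.conj, Tr.YY]
  | node j f p ihf ihp =>
    simp only [Tr.conj, Tr.YY, ihf, ihp, k_conj_R2b, tau_conj_R2b, dot_neg_R2b, map_mul, map_inv₀,
      Complex.conj_I, Complex.conj_ofReal]
    push_cast
    congr 2
    congr 1
    ring

/-- reality: `cc (conj h) = cc h`, `kap` changes sign, `dot` changes sign -/
theorem run_conj (G : Geo V) (be : V → ℝ) (bB : ℝ) (K : Blk V) (S : RS V)
    (P0 : Lbl V → (V → ℝ) → ℂ) (b : Lbl V → ℝ) (l0 : V → ℝ) (hS : Start G be bB K S P0 b l0)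
    (t : ℕ) (h : Tr V) (w : V → ℝ) :
    (run G be K S t).u (Tr.conj h) w = (starRingEnd ℂ) ((run G be K S t).u h w) := by
  rw [run_u G be bB K S P0 b l0 hS, run_u G be bB K S P0 b l0 hS, cc_conj_R2b,
    cP_conj_R2b _ (fun l => hS.real l w), YY_conj_R2b]
  simp only [map_mul, Complex.conj_ofReal]

/-- conjugation as an equivalence -/
noncomputable def conjEquiv_R2b : Tr V ≃ Tr V :=
  ⟨Tr.conj, Tr.conj, Tr_conj_conj_R2b, Tr_conj_conj_R2b⟩

/-- the shifts are real (for every `w`: reindex by `Tr.conj`) -/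
theorem shc_real (G : Geo V) (be : V → ℝ) (bB : ℝ) (K : Blk V) (S : RS V)
    (P0 : Lbl V → (V → ℝ) → ℂ) (b : Lbl V → ℝ) (l0 : V → ℝ) (hS : Start G be bB K S P0 b l0)
    (t : ℕ) (j : V) (w : V → ℝ) :
    (((shc G K.P t (run G be K S t).u j w).re : ℝ) : ℂ) = shc G K.P t (run G be K S t).u j w := by
  rw [← Complex.conj_eq_iff_re]
  unfold shc
  set g : Tr V → ℂ := rst (fun h => Tr.SS G K.P t h ∧ Tr.n h = Finsupp.single j 1)
    (fun h => (run G be K S t).u h w) with hg
  have h1 : ∀ h, g (Tr.conj h) = (starRingEnd ℂ) (g h) := by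
    intro h
    have h2 : (Tr.SS G K.P t (Tr.conj h) ∧ Tr.n (Tr.conj h) = Finsupp.single j 1) ↔
        (Tr.SS G K.P t h ∧ Tr.n h = Finsupp.single j 1) := by
      rw [SS_conj_R2b, n_conj_R2b]
    simp only [hg, rst]
    by_cases h3 : Tr.SS G K.P t h ∧ Tr.n h = Finsupp.single j 1
    · rw [if_pos h3, if_pos (h2.2 h3)]
      exact run_conj G be bB K S P0 b l0 hS t h w
    · rw [if_neg h3, if_neg fun h4 => h3 (h2.1 h4), map_zero]
  calc (starRingEnd ℂ) (∑' h, g h) = ∑' h, (starRingEnd ℂ) (g h) := by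
        have := tsum_star (f := g) (L := SummationFilter.unconditional _)
        exact this
    _ = ∑' h, g (conjEquiv_R2b h) := by
        refine tsum_congr fun h => ?_
        exact (h1 h).symm
    _ = ∑' h, g h := Equiv.tsum_eq conjEquiv_R2b g

end KX
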