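import Pool.Agent.Lib.MP_73c19a_an.RBc
import Pool.Agent.Lib.MP_73c19a_an.Run

/-!
# One block of the scheme: norms
-/

set_option autoImplicit false

namespace KX

open scoped ENNReal

variable {V : Type} [DecidableEq V]

/-- the weight of the block on trees -/
noncomputable def Blk.wq (K : Blk V) (G : Geo V) (bB : ℝ) (h : Tr V) : ℝ :=
  wt G K.P K.rho K.sg K.kp K.ch K.v (K.w2 G bB) h

/-- the part of the weight without the mass and the charges -/
noncomputable def Blk.base (K : Blk V) (G : Geo V) (h : Tr V) : ℝ :=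
  wt G K.P K.rho K.sg K.kp 0 K.v (fun _ => 0) h

/-- start data of a block -/
structure Start (G : Geo V) (be : V → ℝ) (bB : ℝ) (K : Blk V) (S : RS V) (P0 : Lbl V → (V → ℝ) → ℂ)
    (b : Lbl V → ℝ) (l0 : V → ℝ) : Prop where
  u : S.u = fun h w => lf0 (fun l => P0 l w) h
  rb : ∀ l, RB be S.Gd (P0 l) (b l)
  b0 : ∀ l, 0 ≤ b l
  nrm : ∑' l, ENNReal.ofReal (b l * Wl G K.rho K.sg0 K.kp0 K.v0 l) ≤
    ENNReal.ofReal (K.rho * Real.exp (-K.P.mu))
  real : ∀ l w, P0 l.conj w = (starRingEnd ℂ) (P0 l w)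
  l00 : ∀ j, 0 ≤ l0 j
  lip : ∀ j w w', |S.c j w - S.c j w'| ≤ l0 j * DD be w w'
  lsm : ∀ j, l0 j + ∑ t ∈ Finset.range (2 * K.L), K.lb t j ≤ (be j)⁻¹

private theorem mg_zero_run1a (h : Tr V) : Tr.mg (fun _ : V => (0 : ℝ)) h = 0 := by
  induction h with
  | leaf l => rfl
  | node j f p ihf ihp =>
    simp only [Tr.mg, Finset.sum_const_zero, ihf, ihp, add_zero]

private theorem amon_pos_run1a (G : Geo V) (n : V →₀ ℕ) : 0 < amon G n := by
  unfold amon Finsupp.prod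
  exact Finset.prod_pos fun j _ => pow_pos (G.a_pos j) _

private theorem ainv_pos_run1a (G : Geo V) (A : Finset V) : 0 < G.ainv A :=
  lt_of_lt_of_le one_pos (G.one_le_ainv A)

private theorem v_pos_run1a (G : Geo V) (be : V → ℝ) (bB : ℝ) (K : Blk V) (hK : K.OK G be bB)
    (j : V) : 0 < K.v j := lt_of_lt_of_le (Real.exp_pos _) (hK.v1 j)

theorem wq_leaf_le (G : Geo V) (be : V → ℝ) (bB : ℝ) (K : Blk V) (hK : K.OK G be bB) (l : Lbl V) :
    K.wq G bB (Tr.leaf l) * Real.exp (2 * K.y * (2 * K.L : ℕ) * l.N) ≤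
      Wl G K.rho K.sg0 K.kp0 K.v0 l * Real.exp (K.ch * K.P.mu) := by
  refine le_of_eq ?_
  have h1 : ∏ j ∈ l.A, K.v0 j = (∏ j ∈ l.A, K.v j) *
      Real.exp (K.ch * K.P.la * ((l.A \ K.P.B).card : ℝ)) := by
    unfold Blk.v0
    rw [Finset.prod_mul_distrib, ← Real.exp_sum]
    congr 2
    have h2 : ∀ j : V, (if j ∈ K.P.B then (0 : ℝ) else K.ch * K.P.la) =
        if ¬ j ∈ K.P.B then K.ch * K.P.la else 0 := by
      intro j
      split_ifs <;> simp_all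
    rw [Finset.sum_congr rfl fun j _ => h2 j, ← Finset.sum_filter, Finset.sum_const,
      ← Finset.sdiff_eq_filter, nsmul_eq_mul, mul_comm]
  unfold Blk.wq wt Wl
  rw [h1]
  simp only [Tr.deg, Tr.n, Tr.N, Tr.L, Tr.A, Tr.mass, Tr.q, Tr.o, Tr.mg, Blk.sg0, Blk.kp0]
  have e1 : Real.exp ((K.sg + 2 * K.y * (2 * K.L : ℕ) + K.ch * K.P.de) * l.N +
      (K.kp + K.ch * K.P.de) * G.Lam l.A) =
      Real.exp (K.sg * l.N + K.kp * G.Lam l.A) * Real.exp (2 * K.y * (2 * K.L : ℕ) * l.N) *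
        Real.exp (K.ch * (K.P.de * (l.N + G.Lam l.A))) := by
    rw [← Real.exp_add, ← Real.exp_add]
    congr 1
    ring
  have e2 : Real.exp (K.ch * (K.P.mu * ((1 : ℕ) : ℝ) + K.P.la * ((l.A \ K.P.B).card : ℝ) +
      K.P.de * (l.N + G.Lam l.A)) + 0) = Real.exp (K.ch * K.P.mu) *
      Real.exp (K.ch * K.P.la * ((l.A \ K.P.B).card : ℝ)) *
      Real.exp (K.ch * (K.P.de * (l.N + G.Lam l.A))) := by
    rw [← Real.exp_add, ← Real.exp_add]
    congr 1
    push_cast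
    ring
  rw [e1, e2]
  ring

theorem wq_eq (G : Geo V) (bB : ℝ) (K : Blk V) (h : Tr V) :
    K.wq G bB h = K.base G h * Real.exp ((1 / 2) * Tr.mass G K.P h) * K.Z G bB h := by
  unfold Blk.wq Blk.base Blk.Z wt
  rw [mg_zero_run1a, zero_mul, add_zero, Real.exp_zero, mul_one]
  have e1 : Real.exp (K.ch * Tr.mass G K.P h + Tr.mg (K.w2 G bB) h) =
      Real.exp ((1 / 2) * Tr.mass G K.P h) *
        Real.exp (9 * K.C.th * Tr.mass G K.P h + Tr.mg (K.w2 G bB) h) := by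
    rw [← Real.exp_add]
    congr 1
    unfold Blk.ch
    ring
  rw [e1]
  ring

/-- the tree exponents `N h`, `L h` dominate those of the label -/
theorem Wl_le_base (G : Geo V) (be : V → ℝ) (bB : ℝ) (K : Blk V) (hK : K.OK G be bB) (h : Tr V)
    (hc : Tr.conn h) : Wl G K.rho K.sg K.kp K.v (lab h) ≤ K.base G h := by
  unfold Blk.base Wl wt
  rw [mg_zero_run1a, zero_mul, add_zero, Real.exp_zero, mul_one]
  have hv : 0 ≤ ∏ j ∈ Tr.A h, K.v j := Finset.prod_nonneg fun j _ => (v_pos_run1a G be bB K hK j).le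
  have h1 : ((lab h).N : ℝ) ≤ Tr.N h := by
    have := Tr.nk_le_N h
    exact_mod_cast this
  have h2 : (G.Lam (Tr.A h) : ℝ) ≤ Tr.L G h := by
    exact_mod_cast Tr.Lam_le_L G h hc
  have h3 : Real.exp (K.sg * ((lab h).N : ℝ) + K.kp * (G.Lam (Tr.A h) : ℝ)) ≤
      Real.exp (K.sg * (Tr.N h : ℝ) + K.kp * (Tr.L G h : ℝ)) := by
    apply Real.exp_le_exp.2
    exact add_le_add (mul_le_mul_of_nonneg_left h1 hK.sg0) (mul_le_mul_of_nonneg_left h2 hK.kp0)
  show K.rho ^ dgr (Tr.n h) * amon G (Tr.n h) *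
      Real.exp (K.sg * ((lab h).N : ℝ) + K.kp * (G.Lam (Tr.A h) : ℝ)) * G.ainv (Tr.A h) *
      (∏ j ∈ Tr.A h, K.v j) ≤ K.rho ^ Tr.deg h * amon G (Tr.n h) *
      Real.exp (K.sg * (Tr.N h : ℝ) + K.kp * (Tr.L G h : ℝ)) * G.ainv (Tr.A h) *
      (∏ j ∈ Tr.A h, K.v j)
  refine mul_le_mul_of_nonneg_right (mul_le_mul_of_nonneg_right ?_ (ainv_pos_run1a G _).le) hv
  exact mul_le_mul_of_nonneg_left h3
    (mul_nonneg (pow_nonneg hK.rho0.le _) (amon_pos_run1a G _).le)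

theorem base_pos (G : Geo V) (be : V → ℝ) (bB : ℝ) (K : Blk V) (hK : K.OK G be bB) (h : Tr V) :
    0 < K.base G h := by
  unfold Blk.base wt
  exact mul_pos (mul_pos (mul_pos (mul_pos (mul_pos (pow_pos hK.rho0 _) (amon_pos_run1a G _))
    (Real.exp_pos _)) (ainv_pos_run1a G _))
    (Finset.prod_pos fun j _ => v_pos_run1a G be bB K hK j)) (Real.exp_pos _)

end KX
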