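import Pool.Agent.Lib.MP_73c19a_an.Mg.G005
import Pool.Agent.Lib.MP_73c19a_an.Mg.G006
import Pool.Agent.Lib.MP_73c19a_an.Mg.G024
import Pool.Agent.Lib.MP_73c19a_an.Mg.G019

/-!
# Assembly: tori near polynomially decaying actions
-/

set_option autoImplicit false

namespace KX

open MeasureTheory KamLattice

open scoped ENNReal

theorem main_tori (d : ℕ) (hd : 1 ≤ d) (M : ℝ) (hM : 7 * (d : ℝ) < M) (N : (Fin d → ℝ) → ℝ)
    (hN : IsNorm N) (r s C m c : ℝ) (hr : 0 < r) (hs : 0 < s) (hm : 0 < m) (hc : 0 < c)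
    (hcr : c < 2 * r) (f : Site d → Site d → ℂ × ℂ × ℂ × ℂ → ℂ) (hf : IsInteraction N r s C m f) :
    KamToriNear f r fun j => c * (1 + N (iv j)) ^ (-M) := by
  -- nonnegative constant
  have hf' : IsInteraction N r s (max C 0) m f :=
    ⟨hf.analytic, hf.per1, hf.per2, hf.real, fun i j hij z hz =>
      (hf.bound i j hij z hz).trans (mul_le_mul_of_nonneg_right (mul_le_mul_of_nonneg_right
        (le_max_left _ _) (Real.exp_pos _).le) (by positivity))⟩
  have hC' : 0 ≤ max C 0 := le_max_right _ _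
  -- exponents
  have hd1 : (1 : ℝ) ≤ d := by exact_mod_cast hd
  have hM0 : 0 ≤ M := by linarith
  obtain ⟨del, hdel, hdel1, hdelM⟩ : ∃ del : ℝ, 0 < del ∧ del ≤ 1 ∧
      2 * (3 * (d : ℝ) + 8 * del) + d < M := by
    refine ⟨min 1 ((M - 7 * d) / 32), lt_min one_pos (by linarith), min_le_left _ _, ?_⟩
    have := min_le_right (1 : ℝ) ((M - 7 * d) / 32)
    linarith
  -- the actions
  obtain ⟨hA, K1, hK1, hK1a⟩ := anorm_le d N hN.pos hN.smul hN.add M hM0
  have hAs := anorm_sum d N hN.pos hN.smul hN.add (3 * (d : ℝ) + 8 * del) M (by positivity) hdelM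
    (fun p hp => brz_summable' d hd p hp)
  obtain ⟨c1, c2, hc1, hc2, hcc⟩ := anorm d N hN.pos hN.smul hN.add
  set a : Site d → ℝ := fun j => (1 + N (iv j)) ^ (-M) with ha
  have ha0 : ∀ j, 0 < a j := fun j => (hA j).1
  have ha1 : ∀ j, a j ≤ 1 := fun j => (hA j).2
  -- the centre of the actions
  obtain ⟨cs, hcs1, hcs2, hcs3⟩ : ∃ cs : ℝ, c / 2 < cs ∧ cs ≤ c ∧ cs < r := by
    refine ⟨min c ((c / 2 + r) / 2), lt_min (by linarith) (by linarith), min_le_left _ _, ?_⟩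
    exact (min_le_right _ _).trans_lt (by linarith)
  have hcs0 : 0 < cs := by linarith
  obtain ⟨R, hR0, hRr⟩ : ∃ R : ℝ, 0 < R ∧ cs + R < r := ⟨(r - cs) / 2, by linarith, by linarith⟩
  -- the radius of the scheme
  obtain ⟨r0, hr0, hr0R, hr0c⟩ : ∃ r0 : ℝ, 0 < r0 ∧ r0 * 3 ≤ R / 2 ∧ c / 2 + r0 / 4 ≤ cs := by
    refine ⟨min (R / 6) (cs - c / 2), lt_min (by linarith) (by linarith), ?_, ?_⟩
    · have := min_le_left (R / 6) (cs - c / 2)
      linarith
    · have := min_le_right (R / 6) (cs - c / 2)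
      linarith
  -- exponents of analyticity
  have hm' : 0 < m * c1 := mul_pos hm hc1
  obtain ⟨s1, hs1, hs11, hs12, hs13⟩ : ∃ s1 : ℝ, 0 < s1 ∧ s1 ≤ 1 / 2 ∧ s1 ≤ s / 8 ∧
      s1 ≤ m * c1 / 8 := by
    refine ⟨min (1 / 2) (min (s / 8) (m * c1 / 8)), lt_min (by norm_num)
      (lt_min (by linarith) (by linarith)), min_le_left _ _, ?_, ?_⟩
    · exact (min_le_right _ _).trans (min_le_left _ _)
    · exact (min_le_right _ _).trans (min_le_right _ _)
  -- the coefficients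
  obtain ⟨cf, cf1, cf2, cf3⟩ := exists_cf N r s (max C 0) m hs hC' f hf' a ha0 ha1 cs R hcs0 hR0 hRr
  intro η hη
  obtain ⟨K, y, z, ⟨hSeq, hrho, hsg0, hkp0, hv2, hv1, hsg, hpr, hy, hys, hy1, hz, hz0, hz1,
    hzs, hz4, hmu⟩⟩ := params_main d hd del hdel hdel1 s1 hs1 s1 (s1 / 2000) η r0 hs1
      (by positivity) hη hr0
  have hseq := hSeq a ha0 ha1
  have hsg0' : 0 ≤ (K 0).sg0 := by
    have := Blk_sg_le_sg0 _ _ _ _ (hseq.ok 0)
    have := hsg 0
    linarith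
  have hkp0' : 0 ≤ (K 0).kp0 := Blk_kp0_nonneg _ _ _ _ (hseq.ok 0)
  obtain ⟨Kc, hKc, hKcf⟩ := embed_norm d hd a ha0 ha1 M (3 * (d : ℝ) + 8 * del) K1 (m * c1) R
    (K 0).rho (K 0).sg0 (K 0).kp0 (s / 2) hM0 (by positivity) hK1 hm' hR0 (by rw [hrho]; exact hr0)
    (by positivity) hsg0' hkp0' (fun i j => hK1a i j) hAs
    (by
      rw [hrho]
      have h1 : (K 0).sg0 ≤ 1 := by linarith
      have h2 : Real.exp (K 0).sg0 ≤ 3 :=
        (Real.exp_le_exp.2 h1).trans (by have := Real.exp_one_lt_d9; linarith)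
      nlinarith)
    (by linarith) (by linarith) (K 0).v0 (fun j => by linarith [hv1 j]) hv2
  have hcf0 : 0 ≤ max C 0 * (cs + R) ^ 2 := by positivity
  have hsum := hKcf (max C 0 * (cs + R) ^ 2) cf hcf0 (fun i y => cf2.diag i y) (by
    intro i j n1 n2 k1 k2
    refine (cf3 i j n1 n2 k1 k2).trans ?_
    have h1 : Real.exp (-m * N (iv (i - j))) ≤ Real.exp (-(m * c1) * nd i j) := by
      refine Real.exp_le_exp.2 ?_
      have h2 := mul_le_mul_of_nonneg_left (hcc i j).1 hm.le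
      have h3 : m * N (iv (i - j)) = m * N (fun a => (((i - j) a : ℤ) : ℝ)) := rfl
      linarith
    have h4 : 0 ≤ (a i + a j) ^ 2 / ((R * a i) ^ n1 * (R * a j) ^ n2) *
        Real.exp (-(s / 2) * (|(k1 : ℝ)| + |(k2 : ℝ)|)) := by
      have := ha0 i
      have := ha0 j
      positivity
    calc _ = max C 0 * (cs + R) ^ 2 * Real.exp (-m * N (iv (i - j))) *
          ((a i + a j) ^ 2 / ((R * a i) ^ n1 * (R * a j) ^ n2) *
          Real.exp (-(s / 2) * (|(k1 : ℝ)| + |(k2 : ℝ)|))) := by ring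
      _ ≤ max C 0 * (cs + R) ^ 2 * Real.exp (-(m * c1) * nd i j) *
          ((a i + a j) ^ 2 / ((R * a i) ^ n1 * (R * a j) ^ n2) *
          Real.exp (-(s / 2) * (|(k1 : ℝ)| + |(k2 : ℝ)|))) :=
        mul_le_mul_of_nonneg_right (mul_le_mul_of_nonneg_left h1 hcf0) h4
      _ = _ := by ring)
  -- the threshold
  set Kt : ℝ := max C 0 * (cs + R) ^ 2 * Kc with hKt
  have hKt0 : 0 ≤ Kt := by positivity
  refine ⟨r0 * Real.exp (-(K 0).P.mu) / (Kt + 1), by positivity, ?_⟩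
  intro ep hep hep0
  have hepK : ep * Kt ≤ (K 0).rho * Real.exp (-(K 0).P.mu) := by
    rw [hrho]
    rw [lt_div_iff₀ (by positivity)] at hep0
    nlinarith
  have hreal := P0of_real ep cf cf1
  have hn := (P0of_norm (geoZ d a ha0 ha1) (K 0).rho (K 0).sg0 (K 0).kp0 (K 0).v0 ep hep.le cf Kt hKt0
    (by rw [hrho]; exact hr0) (fun j => by linarith [hv1 j]) hsum).trans
    (ENNReal.ofReal_le_ofReal hepK)
  have hprob := (glob_prob (geoZ d a ha0 ha1) _ ((d : ℝ) + del) K _ hseq (P0of ep cf) hreal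
    hn).trans hpr
  obtain ⟨E, hE, hE1, hE2⟩ := exists_measurable_large (PP (Site d)) _ η hη.le hprob
  refine ⟨E, hE, hE1, ?_⟩
  intro w hw
  have hw' := Set.mem_iInter.1 (hE2 hw)
  obtain ⟨Ψ, wt, hT, hclose⟩ := exists_torus N hN r s (max C 0) m hr hs hC' hm f hf' a ha0 ha1 _
    ((d : ℝ) + del) K _ hseq y z s1 hs1 (by linarith) hv1 hsg hy hys hy1 hz hz0 hz1 hzs hz4 hmu cs R
    c ep hcs0 (by rw [hrho]; linarith) hRr hep hc hcs2 (by rw [hrho]; exact hr0c) cf cf1 cf2 Kt hKt0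
    hsum hepK w hw'
  exact ⟨Ψ, wt, hT, fun _ => 0, fun j => hclose _ j⟩

end KX
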