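import Pool.Agent.Lib.MP_73c19a_an.Mg.G003

/-!
# Positions in trees

`Lf h`: the leaf positions, `Dv h`: the positions of the divided (left) children, with their
subtrees and leaf sets.
-/

set_option autoImplicit false
set_option linter.unusedSectionVars false

namespace KX

variable {V : Type} [DecidableEq V]

namespace Tr

theorem tau_osub_le (G : Geo V) (P : BP V) (h : Tr V) (hg : Good G P h) (hd : deg h ≤ 1)
    (y : Option (Dv h)) : tau G P (osub h y) ≤ tau G P h := by
  cases y with
  | none => exact le_rfl
  | some y =>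
    exact le_of_lt (lt_of_lt_of_le (good_sub G P h hg y).2.2.2 (good_tau G P h hg hd))

/-- every leaf lies in at most `T` divided positions (including the root) when all elimination times
are smaller than `T` -/
theorem depth_le (G : Geo V) (P : BP V) (h : Tr V) (hg : Good G P h) (hd : deg h ≤ 1) (T : ℕ)
    (hT : tau G P h < T) (x : Lf h) :
    (Finset.univ.filter fun y : Option (Dv h) => x ∈ ls h y).card ≤ T := by
  have h1 := Finset.card_le_card_of_injOn
    (s := Finset.univ.filter fun y : Option (Dv h) => x ∈ ls h y) (t := Finset.range T)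
    (fun y => tau G P (osub h y))
    (fun y _ => Finset.mem_coe.2 (Finset.mem_range.2
      (lt_of_le_of_lt (tau_osub_le G P h hg hd y) hT)))
    (by
      intro y hy z hz hyz
      have hy' : x ∈ ls h y := (Finset.mem_filter.1 (Finset.mem_coe.1 hy)).2
      have hz' : x ∈ ls h z := (Finset.mem_filter.1 (Finset.mem_coe.1 hz)).2
      by_contra hne
      have hyz' : tau G P (osub h y) = tau G P (osub h z) := hyz
      rcases laminar G P h hg hd y z hne with h1 | h1 | h1
      · exact absurd h1.2 (by omega)
      · exact absurd h1.2 (by omega)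
      · exact Finset.disjoint_left.1 h1 hy' hz')
  rwa [Finset.card_range] at h1

theorem sum_osub_le_aux (h : Tr V) (c : ℕ)
    (hc : ∀ x : Lf h, (Finset.univ.filter fun y : Option (Dv h) => x ∈ ls h y).card ≤ c)
    (F : Tr V → ℝ) (g : Lbl V → ℝ) (hg0 : ∀ l, 0 ≤ g l)
    (hl : ∀ l, F (leaf l) = g l) (hn : ∀ j f p, F (node j f p) = F f + F p) :
    ∑ y : Option (Dv h), F (osub h y) ≤ c * F h := by
  have h1 : ∑ y : Option (Dv h), F (osub h y) =
      ∑ y : Option (Dv h), ∑ x : Lf h, if x ∈ ls h y then g (lb h x) else 0 := by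
    refine Finset.sum_congr rfl fun y _ => ?_
    rw [sum_ls F g hl hn h y, Finset.sum_ite_mem, Finset.univ_inter]
  rw [h1, Finset.sum_comm, sum_univ_ls F g hl hn h, Finset.mul_sum]
  refine Finset.sum_le_sum fun x _ => ?_
  rw [← Finset.sum_filter, Finset.sum_const, nsmul_eq_mul]
  exact mul_le_mul_of_nonneg_right (by exact_mod_cast hc x) (hg0 _)

/-- sum over the divided positions of an additive nonnegative quantity -/
theorem sum_osub_le (G : Geo V) (P : BP V) (h : Tr V) (hg : Good G P h) (hd : deg h ≤ 1) (T : ℕ)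
    (hT : tau G P h < T) (F : Tr V → ℝ) (g : Lbl V → ℝ) (hg0 : ∀ l, 0 ≤ g l)
    (hl : ∀ l, F (leaf l) = g l) (hn : ∀ j f p, F (node j f p) = F f + F p) :
    ∑ y : Option (Dv h), F (osub h y) ≤ T * F h :=
  sum_osub_le_aux h T (depth_le G P h hg hd T hT) F g hg0 hl hn

/-- the same with the number of leaves instead of the number of elimination times -/
theorem sum_osub_le_q (h : Tr V) (F : Tr V → ℝ) (g : Lbl V → ℝ) (hg0 : ∀ l, 0 ≤ g l)
    (hl : ∀ l, F (leaf l) = g l) (hn : ∀ j f p, F (node j f p) = F f + F p) :
    ∑ y : Option (Dv h), F (osub h y) ≤ q h * F h := by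
  refine sum_osub_le_aux h (q h) (fun x => ?_) F g hg0 hl hn
  refine (Finset.card_filter_le _ _).trans ?_
  rw [Finset.card_univ, Fintype.card_option, card_Dv]

end Tr

end KX
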