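import Pool.Agent.Lib.MP_73c19a_an.RBa

/-!
# Bounded Lipschitz dependence on the frequencies

`DD be w w' = ∑_j be j * min 1 |w j - w' j|`. `RB be Gd f b`: on `Gd` the function `f` is bounded by
`s` and Lipschitz with constant `l` for `DD be`, with `s + l ≤ b`.
-/

set_option autoImplicit false

namespace KX

variable {V : Type}

/-- McShane extension -/
theorem exists_ext (be : V → ℝ) (hb : ∀ j, 0 ≤ be j) (hs : Summable be) (Gd : Set (V → ℝ))
    (f : (V → ℝ) → ℝ) (l : ℝ) (hl : 0 ≤ l)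
    (hf : ∀ w ∈ Gd, ∀ w' ∈ Gd, |f w - f w'| ≤ l * DD be w w') :
    ∃ g : (V → ℝ) → ℝ, (∀ w w', |g w - g w'| ≤ l * DD be w w') ∧ ∀ w ∈ Gd, g w = f w := by
  let inst : PseudoMetricSpace (V → ℝ) :=
    { dist := fun w w' => l * DD be w w'
      dist_self := fun w => by
        show l * DD be w w = 0
        rw [DD_self, mul_zero]
      dist_comm := fun w w' => by
        show l * DD be w w' = l * DD be w' w
        rw [DD_comm]
      dist_triangle := fun w w' w'' => by
        show l * DD be w w'' ≤ l * DD be w w' + l * DD be w' w''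
        rw [← mul_add]
        exact mul_le_mul_of_nonneg_left (DD_triangle be hb hs w w' w'') hl }
  have h1 : @LipschitzOnWith (V → ℝ) ℝ inst.toPseudoEMetricSpace _ 1 f Gd := by
    apply @LipschitzOnWith.of_dist_le_mul (V → ℝ) ℝ inst _ 1 Gd f
    intro x hx y hy
    rw [NNReal.coe_one, one_mul, Real.dist_eq]
    exact hf x hx y hy
  obtain ⟨g, hg, hgf⟩ := @LipschitzOnWith.extend_real (V → ℝ) inst f Gd 1 h1
  refine ⟨g, fun w w' => ?_, fun w hw => (hgf hw).symm⟩
  have h2 := @LipschitzWith.dist_le_mul (V → ℝ) ℝ inst _ 1 g hg w w'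
  rw [NNReal.coe_one, one_mul, Real.dist_eq] at h2
  exact h2

open Classical in
/-- the extension of `f` from `Gd` with Lipschitz constant `l` (`0` if there is none) -/
noncomputable def extL (be : V → ℝ) (Gd : Set (V → ℝ)) (l : ℝ) (f : (V → ℝ) → ℝ) :
    (V → ℝ) → ℝ :=
  if h : ∃ g : (V → ℝ) → ℝ, (∀ w w', |g w - g w'| ≤ l * DD be w w') ∧ ∀ w ∈ Gd, g w = f w
  then h.choose else fun _ => 0

/-- in all cases the extension is Lipschitz -/
theorem extL_lip (be : V → ℝ) (hb : ∀ j, 0 ≤ be j) (Gd : Set (V → ℝ)) (l : ℝ) (hl : 0 ≤ l)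
    (f : (V → ℝ) → ℝ) (w w' : V → ℝ) : |extL be Gd l f w - extL be Gd l f w'| ≤ l * DD be w w' := by
  unfold extL
  split_ifs with h
  · exact h.choose_spec.1 w w'
  · simp only [sub_self, abs_zero]
    exact mul_nonneg hl (DD_nonneg be hb w w')

theorem extL_eq (be : V → ℝ) (hb : ∀ j, 0 ≤ be j) (hs : Summable be) (Gd : Set (V → ℝ)) (l : ℝ)
    (hl : 0 ≤ l) (f : (V → ℝ) → ℝ)
    (hf : ∀ w ∈ Gd, ∀ w' ∈ Gd, |f w - f w'| ≤ l * DD be w w') (w : V → ℝ) (hw : w ∈ Gd) :
    extL be Gd l f w = f w := by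
  have h := exists_ext be hb hs Gd f l hl hf
  unfold extL
  rw [dif_pos h]
  exact h.choose_spec.2 w hw

end KX
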