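import Pool.Agent.Lib.MP_73c19a_an.Run1a
import Pool.Agent.Lib.MP_73c19a_an.Mg.G004

/-!
# One block of the scheme: the invariants
-/

set_option autoImplicit false

namespace KX

open scoped ENNReal

variable {V : Type} [DecidableEq V]

theorem run_Gd_anti (G : Geo V) (be : V → ℝ) (K : Blk V) (S : RS V) {s t : ℕ} (hst : s ≤ t) :
    (run G be K S t).Gd ⊆ (run G be K S s).Gd := by
  induction t, hst using Nat.le_induction with
  | base => exact fun w hw => hw
  | succ t _ ih => exact fun w hw => ih hw.1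

/-- on the good set the conditions hold at all earlier times -/
theorem run_cond (G : Geo V) (be : V → ℝ) (K : Blk V) (S : RS V) (s t : ℕ) (hst : s < t)
    (w : V → ℝ) (hw : w ∈ (run G be K S t).Gd) :
    DC G K.C (frq (run G be K S s).c w) ∧ JC G K.C K.Am (frq (run G be K S s).c w) := by
  have h1 : w ∈ (run G be K S (s + 1)).Gd := run_Gd_anti G be K S (Nat.succ_le_of_lt hst) hw
  exact h1.2

theorem Run2a_v_pos (G : Geo V) (be : V → ℝ) (bB : ℝ) (K : Blk V) (hK : K.OK G be bB) (j : V) :
    0 < K.v j := lt_of_lt_of_le (Real.exp_pos _) (hK.v1 j)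

theorem Run2a_lb_nonneg (G : Geo V) (be : V → ℝ) (bB : ℝ) (K : Blk V) (hK : K.OK G be bB) (t : ℕ)
    (j : V) : 0 ≤ K.lb t j := by
  have h1 := Run2a_v_pos G be bB K hK j
  unfold Blk.lb
  positivity

/-- global Lipschitz bound of the shifts (by `extL_lip`) -/
theorem run_lip (G : Geo V) (be : V → ℝ) (bB : ℝ) (K : Blk V) (hK : K.OK G be bB) (S : RS V)
    (P0 : Lbl V → (V → ℝ) → ℂ) (b : Lbl V → ℝ) (l0 : V → ℝ) (hS : Start G be bB K S P0 b l0)
    (t : ℕ) (j : V) (w w' : V → ℝ) :
    |(run G be K S t).c j w - (run G be K S t).c j w'| ≤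
      (l0 j + ∑ s ∈ Finset.range t, K.lb s j) * DD be w w' := by
  induction t with
  | zero =>
    rw [Finset.sum_range_zero, add_zero]
    exact hS.lip j w w'
  | succ t ih =>
    rw [Finset.sum_range_succ, ← add_assoc, add_mul]
    have h1 := extL_lip be (fun j => (hK.be0 j).le)
      ((run G be K S t).Gd ∩ {w | DC G K.C (frq (run G be K S t).c w) ∧
        JC G K.C K.Am (frq (run G be K S t).c w)}) (K.lb t j) (Run2a_lb_nonneg G be bB K hK t j)
      (fun w => (shc G K.P t (run G be K S t).u j w).re) w w'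
    have h2 : ∀ w, (run G be K S (t + 1)).c j w = (run G be K S t).c j w + extL be
      ((run G be K S t).Gd ∩ {w | DC G K.C (frq (run G be K S t).c w) ∧
        JC G K.C K.Am (frq (run G be K S t).c w)}) (K.lb t j)
      (fun w => (shc G K.P t (run G be K S t).u j w).re) w := fun w => rfl
    rw [h2 w, h2 w']
    refine le_trans ?_ (add_le_add ih h1)
    refine le_trans (le_of_eq ?_) (abs_add_le _ _)
    congr 1
    ring

/-- product formula for the states -/
theorem run_u (G : Geo V) (be : V → ℝ) (bB : ℝ) (K : Blk V) (S : RS V)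
    (P0 : Lbl V → (V → ℝ) → ℂ) (b : Lbl V → ℝ) (l0 : V → ℝ) (hS : Start G be bB K S P0 b l0)
    (t : ℕ) (h : Tr V) (w : V → ℝ) :
    (run G be K S t).u h w = (cc G K.P t h : ℂ) * cP (fun l => P0 l w) h *
      Tr.YY G K.P (fun s => frq (run G be K S s).c w) h := by
  refine product_formula G K.P (fun l => P0 l w) (fun s => frq (run G be K S s).c w)
    (fun t h => (run G be K S t).u h w) ?_ (fun t => rfl) t h
  funext h
  change S.u h w = _
  rw [hS.u]

end KX
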